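import Mathlib

/-!
# Ruzsa-Szemerédi systems from balls in `Z^D`
-/

open Finset MeasureTheory

namespace Pool.Agent.H480R2.RS

/-- squared Euclidean norm of an integer vector -/
def nsq {D : ℕ} (x : Fin D → ℤ) : ℤ := ∑ i, x i ^ 2

/-- the lattice ball `{x ∈ Z^D : |x|² ≤ R}` -/
noncomputable def ball (D R : ℕ) : Finset (Fin D → ℤ) :=
  (Fintype.piFinset fun _ => Finset.Icc (-(R : ℤ)) R).filter (fun x => nsq x ≤ R)

/-- pairs `(x, y)` with `x`, `y`, `x + y` in the ball -/
noncomputable def pairs (D R : ℕ) : Finset ((Fin D → ℤ) × (Fin D → ℤ)) :=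
  ((ball D R) ×ˢ (ball D R)).filter (fun p => nsq (p.1 + p.2) ≤ R)

/-- the pairs with `|x - y|² = K` -/
noncomputable def pairsK (D R K : ℕ) : Finset ((Fin D → ℤ) × (Fin D → ℤ)) :=
  (pairs D R).filter (fun p => nsq (p.1 - p.2) = K)

/-- the Euclidean ball of radius `ρ` in `R^D` -/
def rball (D : ℕ) (ρ : ℝ) : Set (Fin D → ℝ) := {w | ∑ i, w i ^ 2 ≤ ρ ^ 2}

/-- its volume for radius one -/
noncomputable def V (D : ℕ) : ℝ := (volume (rball D 1)).toReal

theorem nsq_nonneg {D : ℕ} (x : Fin D → ℤ) : 0 ≤ nsq x := Finset.sum_nonneg fun i _ => sq_nonneg _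

theorem mem_ball {D R : ℕ} {x : Fin D → ℤ} : x ∈ ball D R ↔ nsq x ≤ R := by
  unfold ball
  rw [Finset.mem_filter]
  constructor
  · exact fun h => h.2
  · intro h
    refine ⟨?_, h⟩
    rw [Fintype.mem_piFinset]
    intro i
    have h1 : x i ^ 2 ≤ nsq x := Finset.single_le_sum (f := fun i => x i ^ 2) (fun _ _ => sq_nonneg _) (Finset.mem_univ i)
    rw [Finset.mem_Icc]
    constructor <;> nlinarith [h1, h, sq_nonneg (x i + 1), sq_nonneg (x i - 1)]

theorem mem_pairs {D R : ℕ} {p : (Fin D → ℤ) × (Fin D → ℤ)} :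
    p ∈ pairs D R ↔ nsq p.1 ≤ R ∧ nsq p.2 ≤ R ∧ nsq (p.1 + p.2) ≤ R := by
  unfold pairs
  rw [Finset.mem_filter, Finset.mem_product, mem_ball, mem_ball]
  tauto

theorem mem_pairsK {D R K : ℕ} {p : (Fin D → ℤ) × (Fin D → ℤ)} :
    p ∈ pairsK D R K ↔ nsq p.1 ≤ R ∧ nsq p.2 ≤ R ∧ nsq (p.1 + p.2) ≤ R ∧ nsq (p.1 - p.2) = K := by
  unfold pairsK
  rw [Finset.mem_filter, mem_pairs]
  tauto

/-- the key rigidity: parallelogram law -/
theorem rigid {D : ℕ} {K : ℤ} {x y z : Fin D → ℤ} (h1 : nsq (x - y) = K) (h2 : nsq (x + x + z) = K)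
    (h3 : nsq (y + y + z) = K) : z = -(x + y) := by
  have key : nsq (x + x + z) + nsq (y + y + z) = 2 * nsq (x - y) + 2 * nsq (x + y + z) := by
    unfold nsq
    rw [← Finset.sum_add_distrib, Finset.mul_sum, Finset.mul_sum, ← Finset.sum_add_distrib]
    apply Finset.sum_congr rfl
    intro i _
    simp only [Pi.add_apply, Pi.sub_apply]
    ring
  have h0 : nsq (x + y + z) = 0 := by rw [h1, h2, h3] at key; linarith
  have : ∀ i, x i + y i + z i = 0 := by
    intro i
    have := (Finset.sum_eq_zero_iff_of_nonneg (fun i _ => sq_nonneg ((x + y + z) i))).1 h0 i (Finset.mem_univ i)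
    simpa using this
  funext i
  have := this i
  simp only [Pi.neg_apply, Pi.add_apply]
  linarith

/-- pigeonhole over the value of `|x - y|²` -/
theorem exists_K (D R : ℕ) : ∃ K : ℕ, (pairs D R).card ≤ (4 * R + 1) * (pairsK D R K).card := by
  by_contra hcon
  push Not at hcon
  have hmap : ∀ p ∈ pairs D R, (nsq (p.1 - p.2)).toNat ∈ Finset.range (4 * R + 1) := by
    intro p hp
    rw [mem_pairs] at hp
    have h4 : nsq (p.1 - p.2) + nsq (p.1 + p.2) = 2 * nsq p.1 + 2 * nsq p.2 := by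
      unfold nsq
      rw [← Finset.sum_add_distrib, Finset.mul_sum, Finset.mul_sum, ← Finset.sum_add_distrib]
      apply Finset.sum_congr rfl
      intro i _
      simp only [Pi.add_apply, Pi.sub_apply]
      ring
    have := nsq_nonneg (p.1 + p.2)
    have := nsq_nonneg (p.1 - p.2)
    rw [Finset.mem_range]
    omega
  have hsum := Finset.card_eq_sum_card_fiberwise (f := fun p => (nsq (p.1 - p.2)).toNat)
    (s := pairs D R) (t := Finset.range (4 * R + 1)) hmap
  have hfib : ∀ K ∈ Finset.range (4 * R + 1),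
      ((pairs D R).filter (fun p => (nsq (p.1 - p.2)).toNat = K)).card = (pairsK D R K).card := by
    intro K _
    unfold pairsK
    congr 1
    apply Finset.filter_congr
    intro p _
    have := nsq_nonneg (p.1 - p.2)
    omega
  rw [Finset.sum_congr rfl hfib] at hsum
  have hlt : ∑ K ∈ Finset.range (4 * R + 1), (4 * R + 1) * (pairsK D R K).card <
      ∑ _K ∈ Finset.range (4 * R + 1), (pairs D R).card :=
    Finset.sum_lt_sum_of_nonempty ⟨0, Finset.mem_range.2 (by omega)⟩ (fun K _ => hcon K)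
  rw [← Finset.mul_sum, ← hsum, Finset.sum_const, Finset.card_range, smul_eq_mul] at hlt
  exact lt_irrefl _ hlt

/-- `ex^3(n,6,3)`: the largest number of triples on `n` points such that no six points contain
three of them -/
noncomputable def ex63 (n : ℕ) : ℕ :=
  sSup {m | ∃ E : Finset (Finset (Fin n)), (∀ e ∈ E, e.card = 3) ∧
    (∀ S : Finset (Fin n), S.card = 6 → (E.filter (fun e => e ⊆ S)).card < 3) ∧ E.card = m}

/-- every edge lies in exactly one triangle -/
def UniqueTriangle {n : ℕ} (G : SimpleGraph (Fin n)) : Prop :=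
  ∀ u v, G.Adj u v → ∃! w, G.Adj u w ∧ G.Adj v w

/-- the largest number of edges of a graph on `n` vertices in which every edge lies in exactly
one triangle -/
noncomputable def fUT (n : ℕ) : ℕ :=
  sSup {m | ∃ G : SimpleGraph (Fin n), UniqueTriangle G ∧ G.edgeSet.ncard = m}

end Pool.Agent.H480R2.RS
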