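import Mathlib
import Pool.Agent.H480R2.RS.Defs

/-! VOL (helper325): volumes of Euclidean balls in `Fin D → ℝ`. -/

open Finset MeasureTheory
open scoped Pointwise

namespace Pool.Agent.H480R2.RS

theorem VOL_closed (D : ℕ) (ρ : ℝ) : IsClosed (rball D ρ) := by
  have h : Continuous (fun w : Fin D → ℝ => ∑ i, w i ^ 2) := by fun_prop
  exact isClosed_le h continuous_const

theorem rball_meas (D : ℕ) (ρ : ℝ) : MeasurableSet (rball D ρ) := (VOL_closed D ρ).measurableSet

theorem VOL_box (D : ℕ) (ρ : ℝ) : rball D ρ ⊆ Set.Icc (fun _ => -|ρ|) (fun _ => |ρ|) := by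
  intro w hw
  have hw' : ∑ i, w i ^ 2 ≤ ρ ^ 2 := hw
  have h : ∀ i, |w i| ≤ |ρ| := by
    intro i
    have h1 : w i ^ 2 ≤ ∑ i, w i ^ 2 :=
      Finset.single_le_sum (f := fun i => w i ^ 2) (fun _ _ => sq_nonneg _) (Finset.mem_univ i)
    exact sq_le_sq.1 (le_trans h1 hw')
  exact ⟨fun i => (abs_le.1 (h i)).1, fun i => (abs_le.1 (h i)).2⟩

theorem rball_fin (D : ℕ) (ρ : ℝ) : volume (rball D ρ) ≠ ⊤ := by
  refine ne_of_lt (lt_of_le_of_lt (measure_mono (VOL_box D ρ)) ?_)
  exact (isCompact_Icc).measure_lt_top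

theorem VOL_smul (D : ℕ) {ρ : ℝ} (hρ : 0 < ρ) : rball D ρ = ρ • rball D 1 := by
  ext w
  rw [Set.mem_smul_set_iff_inv_smul_mem₀ hρ.ne']
  simp only [rball, Set.mem_ofPred_eq, Pi.smul_apply, smul_eq_mul, mul_pow, ← Finset.mul_sum]
  rw [inv_pow, inv_mul_le_iff₀ (by positivity)]
  simp

theorem vol_rball (D : ℕ) {ρ : ℝ} (hρ : 0 ≤ ρ) : (volume (rball D ρ)).toReal = ρ ^ D * V D := by
  rcases hρ.eq_or_lt with h | h
  · subst h
    rcases Nat.eq_zero_or_pos D with hD | hD
    · subst hD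
      have : rball 0 0 = rball 0 1 := by
        ext w
        simp [rball]
      rw [this, pow_zero, one_mul]
      rfl
    · have h1 : rball D 0 ⊆ {0} := by
        intro w hw
        have hw' : ∑ i, w i ^ 2 ≤ (0:ℝ) ^ 2 := hw
        rw [Set.mem_singleton_iff]
        funext i
        have h1 : w i ^ 2 ≤ ∑ i, w i ^ 2 :=
          Finset.single_le_sum (f := fun i => w i ^ 2) (fun _ _ => sq_nonneg _) (Finset.mem_univ i)
        have h2 : w i ^ 2 ≤ 0 := by simpa using le_trans h1 hw'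
        have h3 : w i ^ 2 = 0 := le_antisymm h2 (sq_nonneg _)
        simpa using h3
      have : Nonempty (Fin D) := ⟨⟨0, hD⟩⟩
      have h2 : volume (rball D 0) = 0 := measure_mono_null h1 (by simp)
      rw [h2, zero_pow (by omega), zero_mul]
      rfl
  · rw [VOL_smul D h, Measure.addHaar_smul, Module.finrank_fintype_fun_eq_card, Fintype.card_fin,
      ENNReal.toReal_mul, ENNReal.toReal_ofReal (abs_nonneg _), abs_of_pos (by positivity)]
    rfl

theorem V_pos (D : ℕ) : 0 < V D := by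
  unfold V
  refine ENNReal.toReal_pos ?_ (rball_fin D 1)
  have h : IsOpen {w : Fin D → ℝ | ∑ i, w i ^ 2 < 1} := by
    have h : Continuous (fun w : Fin D → ℝ => ∑ i, w i ^ 2) := by fun_prop
    exact isOpen_lt h continuous_const
  have h2 : (0 : Fin D → ℝ) ∈ {w : Fin D → ℝ | ∑ i, w i ^ 2 < 1} := by simp
  have h3 := h.measure_pos volume ⟨0, h2⟩
  refine ne_of_gt (lt_of_lt_of_le h3 (measure_mono ?_))
  intro w hw
  have hw' : ∑ i, w i ^ 2 < 1 := hw
  show ∑ i, w i ^ 2 ≤ 1 ^ 2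
  linarith

theorem V_le (D : ℕ) : V D ≤ 2 ^ D := by
  unfold V
  have h := measure_mono (μ := volume) (VOL_box D 1)
  have h2 : volume (Set.Icc (fun _ : Fin D => -|(1:ℝ)|) (fun _ => |(1:ℝ)|)) = ENNReal.ofReal (2 ^ D) := by
    rw [Real.volume_Icc_pi]
    simp only [abs_one, sub_neg_eq_add, Finset.prod_const, Finset.card_univ, Fintype.card_fin]
    rw [← ENNReal.ofReal_pow (by norm_num)]
    norm_num
  rw [h2] at h
  have h3 := ENNReal.toReal_mono ENNReal.ofReal_ne_top h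
  rwa [ENNReal.toReal_ofReal (by positivity)] at h3

end Pool.Agent.H480R2.RS
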