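import Mathlib
import Pool.Agent.H480R2.RS.VOL

/-! CHEB (helper325): a Markov bound for the slab in the Euclidean ball, averaged over the
lattice ball. -/

open Finset MeasureTheory

namespace Pool.Agent.H480R2.RS

theorem CHEB_flip_mem {D R : ℕ} (i : Fin D) {x : Fin D → ℤ} (hx : x ∈ ball D R) :
    (fun k => if k = i then - x k else x k) ∈ ball D R := by
  rw [mem_ball] at hx ⊢
  have : nsq (fun k => if k = i then - x k else x k) = nsq x := by
    unfold nsq
    apply Finset.sum_congr rfl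
    intro k _
    by_cases h : k = i <;> simp [h]
  rw [this]
  exact hx

theorem CHEB_flip_inv {D : ℕ} (i : Fin D) (x : Fin D → ℤ) :
    (fun k => if k = i then - (fun k => if k = i then - x k else x k) k
      else (fun k => if k = i then - x k else x k) k) = x := by
  funext k
  by_cases h : k = i <;> simp [h]

theorem CHEB_flip {D R : ℕ} {i j : Fin D} (hij : i ≠ j) :
    ∑ x ∈ ball D R, ((x i : ℝ) * (x j : ℝ)) = 0 := by
  have h : ∑ x ∈ ball D R, ((x i : ℝ) * (x j : ℝ)) =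
      ∑ x ∈ ball D R, (-((x i : ℝ) * (x j : ℝ))) := by
    refine Finset.sum_nbij' (fun x => fun k => if k = i then - x k else x k)
      (fun x => fun k => if k = i then - x k else x k) ?_ ?_ ?_ ?_ ?_
    · intro x hx
      exact CHEB_flip_mem i hx
    · intro x hx
      exact CHEB_flip_mem i hx
    · intro x _
      exact CHEB_flip_inv i x
    · intro x _
      exact CHEB_flip_inv i x
    · intro x _
      simp [hij.symm]
  rw [Finset.sum_neg_distrib] at h
  linarith

theorem CHEB_swap {D R : ℕ} (i j : Fin D) :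
    ∑ x ∈ ball D R, ((x i : ℝ) * (x i : ℝ)) = ∑ x ∈ ball D R, ((x j : ℝ) * (x j : ℝ)) := by
  have hm : ∀ x : Fin D → ℤ, x ∈ ball D R → (fun k => x (Equiv.swap i j k)) ∈ ball D R := by
    intro x hx
    rw [mem_ball] at hx ⊢
    have : nsq (fun k => x (Equiv.swap i j k)) = nsq x := by
      unfold nsq
      exact Equiv.sum_comp (Equiv.swap i j) (fun k => x k ^ 2)
    rw [this]
    exact hx
  refine Finset.sum_nbij' (fun x => fun k => x (Equiv.swap i j k))
      (fun x => fun k => x (Equiv.swap i j k)) hm hm ?_ ?_ ?_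
  · intro x _
    funext k
    simp
  · intro x _
    funext k
    simp
  · intro x _
    simp

theorem CHEB_sq {D R : ℕ} (i : Fin D) :
    (D : ℝ) * ∑ x ∈ ball D R, ((x i : ℝ) * (x i : ℝ)) ≤ R * (ball D R).card := by
  have h1 : (D : ℝ) * ∑ x ∈ ball D R, ((x i : ℝ) * (x i : ℝ)) =
      ∑ j : Fin D, ∑ x ∈ ball D R, ((x j : ℝ) * (x j : ℝ)) := by
    rw [Finset.sum_congr rfl (fun j _ => CHEB_swap j i), Finset.sum_const, Finset.card_univ,
      Fintype.card_fin, nsmul_eq_mul]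
  rw [h1, Finset.sum_comm]
  have h2 : ∀ x ∈ ball D R, ∑ j : Fin D, ((x j : ℝ) * (x j : ℝ)) ≤ R := by
    intro x hx
    rw [mem_ball] at hx
    have h3 : ((nsq x : ℤ) : ℝ) ≤ ((R : ℤ) : ℝ) := by exact_mod_cast hx
    unfold nsq at h3
    push_cast at h3
    refine le_trans (le_of_eq ?_) h3
    apply Finset.sum_congr rfl
    intro j _
    ring
  refine le_trans (Finset.sum_le_sum h2) ?_
  rw [Finset.sum_const, nsmul_eq_mul, mul_comm]

theorem CHEB_quad {D R : ℕ} (hD : 1 ≤ D) (w : Fin D → ℝ) :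
    ∑ x ∈ ball D R, (∑ i, w i * (x i : ℝ)) ^ 2 ≤
      (∑ i, w i ^ 2) * (R * (ball D R).card / D) := by
  have hD0 : (0:ℝ) < D := by exact_mod_cast hD
  have h1 : ∑ x ∈ ball D R, (∑ i, w i * (x i : ℝ)) ^ 2 =
      ∑ i, ∑ j, w i * w j * ∑ x ∈ ball D R, ((x i : ℝ) * (x j : ℝ)) := by
    have h0 : ∀ x ∈ ball D R, (∑ i, w i * (x i : ℝ)) ^ 2 =
        ∑ i, ∑ j, w i * w j * ((x i : ℝ) * (x j : ℝ)) := by
      intro x _
      rw [sq, Finset.sum_mul_sum]
      apply Finset.sum_congr rfl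
      intro i _
      apply Finset.sum_congr rfl
      intro j _
      ring
    rw [Finset.sum_congr rfl h0, Finset.sum_comm]
    apply Finset.sum_congr rfl
    intro i _
    rw [Finset.sum_comm]
    apply Finset.sum_congr rfl
    intro j _
    rw [Finset.mul_sum]
  rw [h1, Finset.sum_mul]
  apply Finset.sum_le_sum
  intro i _
  rw [Finset.sum_eq_single i]
  · have h2 := CHEB_sq (R := R) i
    have h3 : ∑ x ∈ ball D R, ((x i : ℝ) * (x i : ℝ)) ≤ R * (ball D R).card / D := by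
      rw [le_div_iff₀ hD0]
      linarith
    have h4 := mul_le_mul_of_nonneg_left h3 (sq_nonneg (w i))
    have h5 : w i * w i = w i ^ 2 := by ring
    rw [h5]
    exact h4
  · intro j _ hj
    rw [CHEB_flip hj.symm, mul_zero]
  · intro h
    exact absurd (Finset.mem_univ i) h

theorem CHEB_compact (D : ℕ) (ρ : ℝ) : IsCompact (rball D ρ) :=
  isCompact_Icc.of_isClosed_subset (VOL_closed D ρ) (VOL_box D ρ)

theorem cheb {D R : ℕ} (hD : 1 ≤ D) (r τ : ℝ) (hr : 0 ≤ r) (hτ : 0 < τ) :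
    ((ball D R).card : ℝ) * (r ^ D * V D) * (1 - r ^ 2 * R / (D * τ ^ 2)) ≤
    ∑ x ∈ ball D R, (volume {w : Fin D → ℝ | w ∈ rball D r ∧ |∑ i, w i * (x i : ℝ)| ≤ τ}).toReal := by
  have hD0 : (0:ℝ) < D := by exact_mod_cast hD
  have hcont : ∀ x : Fin D → ℤ, Continuous (fun w : Fin D → ℝ => (∑ i, w i * (x i : ℝ)) ^ 2) := by
    intro x
    fun_prop
  have hint : ∀ x : Fin D → ℤ, Integrable (fun w : Fin D → ℝ => (∑ i, w i * (x i : ℝ)) ^ 2)
      (volume.restrict (rball D r)) := by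
    intro x
    exact (hcont x).continuousOn.integrableOn_compact (CHEB_compact D r)
  -- one vector
  have h1 : ∀ x : Fin D → ℤ, r ^ D * V D -
      (∫ w in rball D r, (∑ i, w i * (x i : ℝ)) ^ 2) / τ ^ 2 ≤
      (volume {w : Fin D → ℝ | w ∈ rball D r ∧ |∑ i, w i * (x i : ℝ)| ≤ τ}).toReal := by
    intro x
    have hm := mul_meas_ge_le_integral_of_nonneg (μ := volume.restrict (rball D r))
      (f := fun w : Fin D → ℝ => (∑ i, w i * (x i : ℝ)) ^ 2)
      (Filter.Eventually.of_forall fun w => sq_nonneg _) (hint x) (τ ^ 2)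
    have hmeas : MeasurableSet {w : Fin D → ℝ | τ ^ 2 ≤ (∑ i, w i * (x i : ℝ)) ^ 2} :=
      measurableSet_le measurable_const (hcont x).measurable
    rw [measureReal_restrict_apply hmeas] at hm
    have hsub : rball D r ⊆ {w : Fin D → ℝ | w ∈ rball D r ∧ |∑ i, w i * (x i : ℝ)| ≤ τ} ∪
        ({w : Fin D → ℝ | τ ^ 2 ≤ (∑ i, w i * (x i : ℝ)) ^ 2} ∩ rball D r) := by
      intro w hw
      by_cases h : |∑ i, w i * (x i : ℝ)| ≤ τ
      · exact Or.inl ⟨hw, h⟩
      · refine Or.inr ⟨?_, hw⟩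
        push Not at h
        show τ ^ 2 ≤ (∑ i, w i * (x i : ℝ)) ^ 2
        rw [← sq_abs (∑ i, w i * (x i : ℝ))]
        exact pow_le_pow_left₀ hτ.le h.le 2
    have hfin1 : volume {w : Fin D → ℝ | w ∈ rball D r ∧ |∑ i, w i * (x i : ℝ)| ≤ τ} ≠ ⊤ :=
      ne_top_of_le_ne_top (rball_fin D r) (measure_mono fun w hw => hw.1)
    have hfin2 : volume ({w : Fin D → ℝ | τ ^ 2 ≤ (∑ i, w i * (x i : ℝ)) ^ 2} ∩ rball D r) ≠ ⊤ :=
      ne_top_of_le_ne_top (rball_fin D r) (measure_mono fun w hw => hw.2)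
    have h2 : volume.real (rball D r) ≤
        volume.real {w : Fin D → ℝ | w ∈ rball D r ∧ |∑ i, w i * (x i : ℝ)| ≤ τ} +
        volume.real ({w : Fin D → ℝ | τ ^ 2 ≤ (∑ i, w i * (x i : ℝ)) ^ 2} ∩ rball D r) :=
      le_trans (measureReal_mono hsub (by
        refine ne_top_of_le_ne_top (ENNReal.add_ne_top.2 ⟨hfin1, hfin2⟩) (measure_union_le _ _)))
        (measureReal_union_le _ _)
    have h3 : volume.real (rball D r) = r ^ D * V D := vol_rball D hr
    rw [h3] at h2
    have h4 : volume.real ({w : Fin D → ℝ | τ ^ 2 ≤ (∑ i, w i * (x i : ℝ)) ^ 2} ∩ rball D r) ≤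
        (∫ w in rball D r, (∑ i, w i * (x i : ℝ)) ^ 2) / τ ^ 2 := by
      rw [le_div_iff₀ (by positivity), mul_comm]
      exact hm
    have h5 : (volume {w : Fin D → ℝ | w ∈ rball D r ∧ |∑ i, w i * (x i : ℝ)| ≤ τ}).toReal =
      volume.real {w : Fin D → ℝ | w ∈ rball D r ∧ |∑ i, w i * (x i : ℝ)| ≤ τ} := rfl
    rw [h5]
    linarith
  refine le_trans ?_ (Finset.sum_le_sum fun x _ => h1 x)
  rw [Finset.sum_sub_distrib, Finset.sum_const, nsmul_eq_mul, ← Finset.sum_div]
  rw [← integral_finsetSum _ (fun x _ => hint x)]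
  have h6 : ∫ w in rball D r, ∑ x ∈ ball D R, (∑ i, w i * (x i : ℝ)) ^ 2 ≤
      ∫ _w in rball D r, r ^ 2 * (R * (ball D R).card / D) := by
    refine setIntegral_mono_on (integrable_finsetSum _ (fun x _ => hint x)) ?_ (rball_meas D r) ?_
    · exact integrableOn_const (rball_fin D r)
    · intro w hw
      refine le_trans (CHEB_quad hD w) ?_
      exact mul_le_mul_of_nonneg_right hw (by positivity)
  have h7 : ∫ _w in rball D r, r ^ 2 * (R * (ball D R).card / D) =
      (r ^ D * V D) * (r ^ 2 * (R * (ball D R).card / D)) := by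
    rw [setIntegral_const, smul_eq_mul]
    congr 1
    exact vol_rball D hr
  rw [h7] at h6
  have h8 : (∫ w in rball D r, ∑ x ∈ ball D R, (∑ i, w i * (x i : ℝ)) ^ 2) / τ ^ 2 ≤
      (r ^ D * V D) * (r ^ 2 * (R * (ball D R).card / D)) / τ ^ 2 :=
    div_le_div_of_nonneg_right h6 (by positivity)
  have h9 : ((ball D R).card : ℝ) * (r ^ D * V D) * (1 - r ^ 2 * R / (D * τ ^ 2)) =
      ((ball D R).card : ℝ) * (r ^ D * V D) -
        (r ^ D * V D) * (r ^ 2 * (R * (ball D R).card / D)) / τ ^ 2 := by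
    field_simp
  rw [h9]
  linarith

end Pool.Agent.H480R2.RS
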