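import Mathlib
import Pool.Agent.H480R2.RS.Defs

/-!
# The graph of a rigid system: every edge in exactly one triangle
-/

set_option autoImplicit false

open Finset MeasureTheory

namespace Pool.Agent.H480R2.RS

theorem GR_nsq_neg {D : ℕ} (x : Fin D → ℤ) : nsq (-x) = nsq x := by
  unfold nsq
  apply Finset.sum_congr rfl
  intro i _
  simp

/-- the three coordinates of a pair -/
def GRc {D R K : ℕ} (i : Fin 3) (t : {p // p ∈ pairsK D R K}) : Fin D → ℤ :=
  match i with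
  | 0 => t.1.1
  | 1 => t.1.2
  | 2 => -(t.1.1 + t.1.2)

theorem GRc_mem {D R K : ℕ} (i : Fin 3) (t : {p // p ∈ pairsK D R K}) : GRc i t ∈ ball D R := by
  have h := mem_pairsK.1 t.2
  rw [mem_ball]
  match i with
  | 0 => exact h.1
  | 1 => exact h.2.1
  | 2 =>
    change nsq (-(t.1.1 + t.1.2)) ≤ R
    rw [GR_nsq_neg]
    exact h.2.2.1

/-- two coordinates determine the pair -/
theorem GRc_lin {D R K : ℕ} {i j : Fin 3} (hij : i ≠ j) {t t' : {p // p ∈ pairsK D R K}}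
    (hi : GRc i t = GRc i t') (hj : GRc j t = GRc j t') : t = t' := by
  have key : t.1.1 = t'.1.1 ∧ t.1.2 = t'.1.2 := by
    match i, j, hij with
    | 0, 0, h => exact absurd rfl h
    | 1, 1, h => exact absurd rfl h
    | 2, 2, h => exact absurd rfl h
    | 0, 1, _ => exact ⟨hi, hj⟩
    | 1, 0, _ => exact ⟨hj, hi⟩
    | 0, 2, _ =>
      change t.1.1 = t'.1.1 at hi
      change -(t.1.1 + t.1.2) = -(t'.1.1 + t'.1.2) at hj
      refine ⟨hi, ?_⟩
      rw [hi] at hj
      exact add_left_cancel (neg_injective hj)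
    | 2, 0, _ =>
      change t.1.1 = t'.1.1 at hj
      change -(t.1.1 + t.1.2) = -(t'.1.1 + t'.1.2) at hi
      refine ⟨hj, ?_⟩
      rw [hj] at hi
      exact add_left_cancel (neg_injective hi)
    | 1, 2, _ =>
      change t.1.2 = t'.1.2 at hi
      change -(t.1.1 + t.1.2) = -(t'.1.1 + t'.1.2) at hj
      refine ⟨?_, hi⟩
      rw [hi] at hj
      exact add_right_cancel (neg_injective hj)
    | 2, 1, _ =>
      change t.1.2 = t'.1.2 at hj
      change -(t.1.1 + t.1.2) = -(t'.1.1 + t'.1.2) at hi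
      refine ⟨?_, hj⟩
      rw [hj] at hi
      exact add_right_cancel (neg_injective hi)
  exact Subtype.ext (Prod.ext key.1 key.2)

/-- rigidity: three pairs that pairwise share the coordinates of a triangle are equal -/
theorem GRc_rigid {D R K : ℕ} {a b c : {p // p ∈ pairsK D R K}}
    (h0 : GRc 0 a = GRc 0 b) (h1 : GRc 1 a = GRc 1 c) (h2 : GRc 2 b = GRc 2 c) :
    a = b ∧ a = c := by
  have ha := (mem_pairsK.1 a.2).2.2.2
  have hb := (mem_pairsK.1 b.2).2.2.2
  have hc := (mem_pairsK.1 c.2).2.2.2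
  change a.1.1 = b.1.1 at h0
  change a.1.2 = c.1.2 at h1
  change -(b.1.1 + b.1.2) = -(c.1.1 + c.1.2) at h2
  obtain ⟨⟨ax, ay⟩, ha'⟩ := a
  obtain ⟨⟨bx, by'⟩, hb'⟩ := b
  obtain ⟨⟨cx, cy⟩, hc'⟩ := c
  simp only at h0 h1 h2 ha hb hc
  subst h0
  subst h1
  have hz1 : nsq (ax + ax + -(ax + by')) = K := by
    rw [← hb]
    congr 1
    abel
  have hz2 : nsq (ay + ay + -(ax + by')) = K := by
    rw [h2, ← hc, ← GR_nsq_neg]
    congr 1
    abel
  have hz := rigid ha hz1 hz2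
  have e1 : by' = ay := add_left_cancel (neg_injective hz)
  subst e1
  have e2 : cx = ax := by
    have := neg_injective h2
    exact (add_right_cancel this).symm
  subst e2
  exact ⟨rfl, rfl⟩

theorem GRc_rigid' {D R K : ℕ} {i j k : Fin 3} (hij : i ≠ j) (hik : i ≠ k) (hjk : j ≠ k)
    {t a b : {p // p ∈ pairsK D R K}}
    (h0 : GRc i t = GRc i a) (h1 : GRc j t = GRc j b) (h2 : GRc k a = GRc k b) : a = t := by
  match i, j, k, hij, hik, hjk with
  | 0, 1, 2, _, _, _ => exact (GRc_rigid h0 h1 h2).1.symm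
  | 1, 0, 2, _, _, _ => exact (GRc_rigid h1 h0 h2.symm).2.symm
  | 0, 2, 1, _, _, _ =>
    -- t : {0,2}, a : {0,1}, b : {1,2}
    exact (GRc_rigid h0.symm h2 h1).1
  | 2, 0, 1, _, _, _ =>
    -- t : {0,2}, a : {1,2}, b : {0,1}
    have := GRc_rigid (a := b) (b := t) (c := a) h1.symm h2.symm h0
    exact this.2.symm.trans this.1
  | 1, 2, 0, _, _, _ =>
    -- t : {1,2}, a : {0,1}, b : {0,2}
    have := GRc_rigid (a := a) (b := b) (c := t) h2 h0.symm h1.symm
    exact this.2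
  | 2, 1, 0, _, _, _ =>
    -- t : {1,2}, a : {0,2}, b : {0,1}
    have := GRc_rigid (a := b) (b := a) (c := t) h2.symm h1.symm h0.symm
    exact this.1.symm.trans this.2
  | 0, 0, _, h, _, _ => exact absurd rfl h
  | 1, 1, _, h, _, _ => exact absurd rfl h
  | 2, 2, _, h, _, _ => exact absurd rfl h
  | 0, 1, 0, _, h, _ => exact absurd rfl h
  | 0, 1, 1, _, _, h => exact absurd rfl h
  | 0, 2, 0, _, h, _ => exact absurd rfl h
  | 0, 2, 2, _, _, h => exact absurd rfl h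
  | 1, 0, 0, _, _, h => exact absurd rfl h
  | 1, 0, 1, _, h, _ => exact absurd rfl h
  | 1, 2, 1, _, h, _ => exact absurd rfl h
  | 1, 2, 2, _, _, h => exact absurd rfl h
  | 2, 0, 0, _, _, h => exact absurd rfl h
  | 2, 0, 2, _, h, _ => exact absurd rfl h
  | 2, 1, 1, _, _, h => exact absurd rfl h
  | 2, 1, 2, _, h, _ => exact absurd rfl h

/-- the vertices -/
def GRv {D R K : ℕ} (i : Fin 3) (t : {p // p ∈ pairsK D R K}) : Fin 3 × {x // x ∈ ball D R} :=
  (i, ⟨GRc i t, GRc_mem i t⟩)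

theorem GRv_inj {D R K : ℕ} {i j : Fin 3} {t t' : {p // p ∈ pairsK D R K}}
    (h : GRv i t = GRv j t') : i = j ∧ GRc i t = GRc i t' := by
  unfold GRv at h
  rw [Prod.mk.injEq] at h
  obtain ⟨h1, h2⟩ := h
  subst h1
  exact ⟨rfl, congrArg Subtype.val h2⟩

/-- the graph -/
def GRgraph {D R K n : ℕ} (e : Fin 3 × {x // x ∈ ball D R} ↪ Fin n) : SimpleGraph (Fin n) where
  Adj u v := ∃ (t : {p // p ∈ pairsK D R K}) (i j : Fin 3), i ≠ j ∧ u = e (GRv i t) ∧ v = e (GRv j t)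
  symm := by
    constructor
    rintro u v ⟨t, i, j, hij, hu, hv⟩
    exact ⟨t, j, i, hij.symm, hv, hu⟩
  loopless := by
    constructor
    rintro u ⟨t, i, j, hij, hu, hv⟩
    exact hij (GRv_inj (e.injective (hu.symm.trans hv))).1

theorem GRgraph_unique {D R K n : ℕ} (e : Fin 3 × {x // x ∈ ball D R} ↪ Fin n) :
    UniqueTriangle (GRgraph (K := K) e) := by
  rintro u v ⟨t, i, j, hij, rfl, rfl⟩
  obtain ⟨k, hik, hjk⟩ : ∃ k : Fin 3, i ≠ k ∧ j ≠ k := by
    revert i j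
    decide
  refine ⟨e (GRv k t), ⟨⟨t, i, k, hik, rfl, rfl⟩, ⟨t, j, k, hjk, rfl, rfl⟩⟩, ?_⟩
  rintro w ⟨⟨a, i1, k1, hk1, hu1, rfl⟩, ⟨b, j1, k2, hk2, hv1, hw⟩⟩
  obtain ⟨h1, h2⟩ := GRv_inj (e.injective hu1)
  obtain ⟨h3, h4⟩ := GRv_inj (e.injective hv1)
  obtain ⟨h5, h6⟩ := GRv_inj (e.injective hw)
  subst h1 h3 h5
  have hk : k1 = k := by
    have a1 := Fin.val_ne_of_ne hij
    have a2 := Fin.val_ne_of_ne hik
    have a3 := Fin.val_ne_of_ne hjk
    have a4 := Fin.val_ne_of_ne hk1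
    have a5 := Fin.val_ne_of_ne hk2
    have b1 := i.2
    have b2 := j.2
    have b3 := k.2
    have b4 := k1.2
    apply Fin.ext
    omega
  subst hk
  rw [GRc_rigid' hij hk1 hk2 h2 h4 h6]

theorem fUT_ge {D R K n : ℕ} (h : 3 * (ball D R).card ≤ n) : 3 * (pairsK D R K).card ≤ fUT n := by
  classical
  have hcard : Fintype.card (Fin 3 × {x // x ∈ ball D R}) ≤ Fintype.card (Fin n) := by
    rw [Fintype.card_prod, Fintype.card_coe, Fintype.card_fin, Fintype.card_fin]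
    exact h
  obtain ⟨e⟩ := Function.Embedding.nonempty_of_card_le hcard
  have hmem : (GRgraph (K := K) e).edgeSet.ncard ∈
      {m | ∃ G : SimpleGraph (Fin n), UniqueTriangle G ∧ G.edgeSet.ncard = m} :=
    ⟨_, GRgraph_unique e, rfl⟩
  have hbdd : BddAbove {m | ∃ G : SimpleGraph (Fin n), UniqueTriangle G ∧ G.edgeSet.ncard = m} := by
    refine ⟨Nat.card (Sym2 (Fin n)), ?_⟩
    rintro m ⟨G, _, rfl⟩
    rw [← Set.ncard_univ]
    exact Set.ncard_le_ncard (Set.subset_univ _)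
  refine le_trans ?_ (le_csSup hbdd hmem)
  -- the edges
  let p : Fin 3 → Fin 3 × Fin 3 := ![(1, 2), (0, 2), (0, 1)]
  let F : Fin 3 × {p // p ∈ pairsK D R K} → Sym2 (Fin n) := fun q =>
    s(e (GRv (p q.1).1 q.2), e (GRv (p q.1).2 q.2))
  have hp : ∀ i, (p i).1 ≠ (p i).2 := by decide
  have hFinj : Function.Injective F := by
    rintro ⟨i, t⟩ ⟨i', t'⟩ hF
    simp only [F, Sym2.eq_iff] at hF
    rcases hF with ⟨h1, h2⟩ | ⟨h1, h2⟩
    · obtain ⟨h3, h4⟩ := GRv_inj (e.injective h1)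
      obtain ⟨h5, h6⟩ := GRv_inj (e.injective h2)
      have hi : i = i' := by
        clear h1 h2 h4 h6
        revert i i'
        decide
      subst hi
      rw [GRc_lin (hp i) h4 h6]
    · obtain ⟨h3, h4⟩ := GRv_inj (e.injective h1)
      obtain ⟨h5, h6⟩ := GRv_inj (e.injective h2)
      exfalso
      clear h1 h2 h4 h6
      revert i i'
      decide
  have hF : Set.range F ⊆ (GRgraph (K := K) e).edgeSet := by
    rintro _ ⟨⟨i, t⟩, rfl⟩
    rw [SimpleGraph.mem_edgeSet]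
    exact ⟨t, _, _, hp i, rfl, rfl⟩
  calc 3 * (pairsK D R K).card = Nat.card (Fin 3 × {p // p ∈ pairsK D R K}) := by
        rw [Nat.card_eq_fintype_card, Fintype.card_prod, Fintype.card_coe, Fintype.card_fin]
    _ = (Set.range F).ncard := by
        rw [← Set.image_univ, Set.ncard_image_of_injective _ hFinj, Set.ncard_univ]
    _ ≤ _ := Set.ncard_le_ncard hF

end Pool.Agent.H480R2.RS
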