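import Mathlib
import Pool.Agent.H480R2.RS.Defs

/-! Task HG: the hypergraph. -/

open Finset MeasureTheory

namespace Pool.Agent.H480R2.RS

theorem HG_card3 {n : ℕ} (x y z : Fin n) :
    (x = y ∧ y = z ∧ ({x, y, z} : Finset (Fin n)).card = 1) ∨
    (x = y ∧ y ≠ z ∧ ({x, y, z} : Finset (Fin n)).card = 2) ∨
    (x ≠ y ∧ y = z ∧ ({x, y, z} : Finset (Fin n)).card = 2) ∨
    (x = z ∧ x ≠ y ∧ ({x, y, z} : Finset (Fin n)).card = 2) ∨
    (x ≠ y ∧ y ≠ z ∧ x ≠ z ∧ ({x, y, z} : Finset (Fin n)).card = 3) := by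
  by_cases h1 : x = y
  · by_cases h2 : y = z
    · left; subst h1; subst h2; simp
    · right; left; subst h1; exact ⟨rfl, h2, by simp [h2]⟩
  · by_cases h2 : y = z
    · right; right; left; subst h2; exact ⟨h1, rfl, by simp [h1]⟩
    · by_cases h3 : x = z
      · right; right; right; left; subst h3
        refine ⟨rfl, h1, ?_⟩
        have : ({x, y, x} : Finset (Fin n)) = {x, y} := by
          ext w; simp; tauto
        rw [this, Finset.card_pair h1]
      · right; right; right; right
        exact ⟨h1, h2, h3, by rw [Finset.card_eq_three]; exact ⟨x, y, z, h1, h3, h2, rfl⟩⟩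

theorem HG_core {n : ℕ} {ι : Type*} [DecidableEq ι] (P : Finset ι) (a b c : ι → Fin n)
    (hab : ∀ p ∈ P, ∀ q ∈ P, a p ≠ b q) (hac : ∀ p ∈ P, ∀ q ∈ P, a p ≠ c q)
    (hbc : ∀ p ∈ P, ∀ q ∈ P, b p ≠ c q)
    (h1 : ∀ p ∈ P, ∀ q ∈ P, a p = a q → b p = b q → p = q)
    (h2 : ∀ p ∈ P, ∀ q ∈ P, a p = a q → c p = c q → p = q)
    (h3 : ∀ p ∈ P, ∀ q ∈ P, b p = b q → c p = c q → p = q)
    (h4 : ∀ p ∈ P, ∀ q ∈ P, ∀ r ∈ P, a p = a q → b q = b r → c r = c p → p = q) :
    P.card ≤ ex63 n := by
  classical
  let e : ι → Finset (Fin n) := fun p => {a p, b p, c p}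
  have hinj : Set.InjOn e P := by
    intro p hp q hq hpq
    have e1 : a p ∈ e q := by rw [← hpq]; simp [e]
    have e2 : b p ∈ e q := by rw [← hpq]; simp [e]
    simp only [e, Finset.mem_insert, Finset.mem_singleton] at e1 e2
    have f1 : a p = a q := by
      rcases e1 with h | h | h
      · exact h
      · exact absurd h (hab p hp q hq)
      · exact absurd h (hac p hp q hq)
    have f2 : b p = b q := by
      rcases e2 with h | h | h
      · exact absurd h.symm (hab q hq p hp)
      · exact h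
      · exact absurd h (hbc p hp q hq)
    exact h1 p hp q hq f1 f2
  unfold ex63
  refine le_csSup ?_ ⟨P.image e, ?_, ?_, ?_⟩
  · refine ⟨Fintype.card (Finset (Fin n)), ?_⟩
    rintro m ⟨E, -, -, rfl⟩
    exact Finset.card_le_univ E
  · intro s hs
    obtain ⟨p, hp, rfl⟩ := Finset.mem_image.1 hs
    simp only [e]
    rw [Finset.card_eq_three]
    exact ⟨a p, b p, c p, hab p hp p hp, hac p hp p hp, hbc p hp p hp, rfl⟩
  · intro S hS
    by_contra hcon
    have hcon' : 2 < ((P.image e).filter (fun s => s ⊆ S)).card := by omega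
    rw [Finset.two_lt_card] at hcon'
    obtain ⟨s1, hs1, s2, hs2, s3, hs3, h12, h13, h23⟩ := hcon'
    rw [Finset.mem_filter] at hs1 hs2 hs3
    obtain ⟨p, hp, rfl⟩ := Finset.mem_image.1 hs1.1
    obtain ⟨q, hq, rfl⟩ := Finset.mem_image.1 hs2.1
    obtain ⟨r, hr, rfl⟩ := Finset.mem_image.1 hs3.1
    have hpq : p ≠ q := fun h => h12 (by rw [h])
    have hpr : p ≠ r := fun h => h13 (by rw [h])
    have hqr : q ≠ r := fun h => h23 (by rw [h])
    have k1 := hs1.2
    have k2 := hs2.2
    have k3 := hs3.2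
    simp only [e, Finset.insert_subset_iff, Finset.singleton_subset_iff] at k1 k2 k3
    set SA : Finset (Fin n) := {a p, a q, a r} with hSA
    set SB : Finset (Fin n) := {b p, b q, b r} with hSB
    set SC : Finset (Fin n) := {c p, c q, c r} with hSC
    have dAB : Disjoint SA SB := by
      rw [Finset.disjoint_left]
      intro w hw hw'
      simp only [hSA, hSB, Finset.mem_insert, Finset.mem_singleton] at hw hw'
      rcases hw with rfl | rfl | rfl <;> rcases hw' with h | h | h <;>
        first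
        | exact hab _ hp _ hp h
        | exact hab _ hp _ hq h
        | exact hab _ hp _ hr h
        | exact hab _ hq _ hp h
        | exact hab _ hq _ hq h
        | exact hab _ hq _ hr h
        | exact hab _ hr _ hp h
        | exact hab _ hr _ hq h
        | exact hab _ hr _ hr h
    have dAC : Disjoint SA SC := by
      rw [Finset.disjoint_left]
      intro w hw hw'
      simp only [hSA, hSC, Finset.mem_insert, Finset.mem_singleton] at hw hw'
      rcases hw with rfl | rfl | rfl <;> rcases hw' with h | h | h <;>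
        first
        | exact hac _ hp _ hp h
        | exact hac _ hp _ hq h
        | exact hac _ hp _ hr h
        | exact hac _ hq _ hp h
        | exact hac _ hq _ hq h
        | exact hac _ hq _ hr h
        | exact hac _ hr _ hp h
        | exact hac _ hr _ hq h
        | exact hac _ hr _ hr h
    have dBC : Disjoint SB SC := by
      rw [Finset.disjoint_left]
      intro w hw hw'
      simp only [hSB, hSC, Finset.mem_insert, Finset.mem_singleton] at hw hw'
      rcases hw with rfl | rfl | rfl <;> rcases hw' with h | h | h <;>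
        first
        | exact hbc _ hp _ hp h
        | exact hbc _ hp _ hq h
        | exact hbc _ hp _ hr h
        | exact hbc _ hq _ hp h
        | exact hbc _ hq _ hq h
        | exact hbc _ hq _ hr h
        | exact hbc _ hr _ hp h
        | exact hbc _ hr _ hq h
        | exact hbc _ hr _ hr h
    have hsub : SA ∪ SB ∪ SC ⊆ S := by
      intro w hw
      simp only [hSA, hSB, hSC, Finset.mem_union, Finset.mem_insert, Finset.mem_singleton] at hw
      rcases hw with ((rfl | rfl | rfl) | (rfl | rfl | rfl)) | (rfl | rfl | rfl)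
      · exact k1.1
      · exact k2.1
      · exact k3.1
      · exact k1.2.1
      · exact k2.2.1
      · exact k3.2.1
      · exact k1.2.2
      · exact k2.2.2
      · exact k3.2.2
    have hcard := Finset.card_le_card hsub
    rw [Finset.card_union_of_disjoint (Finset.disjoint_union_left.2 ⟨dAC, dBC⟩),
      Finset.card_union_of_disjoint dAB, hS] at hcard
    have A := HG_card3 (a p) (a q) (a r)
    have B := HG_card3 (b p) (b q) (b r)
    have C := HG_card3 (c p) (c q) (c r)
    rw [← hSA] at A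
    rw [← hSB] at B
    rw [← hSC] at C
    have pq1 : a p = a q → b p = b q → False := fun x y => hpq (h1 p hp q hq x y)
    have pq2 : a p = a q → c p = c q → False := fun x y => hpq (h2 p hp q hq x y)
    have pq3 : b p = b q → c p = c q → False := fun x y => hpq (h3 p hp q hq x y)
    have pr1 : a p = a r → b p = b r → False := fun x y => hpr (h1 p hp r hr x y)
    have pr2 : a p = a r → c p = c r → False := fun x y => hpr (h2 p hp r hr x y)
    have pr3 : b p = b r → c p = c r → False := fun x y => hpr (h3 p hp r hr x y)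
    have qr1 : a q = a r → b q = b r → False := fun x y => hqr (h1 q hq r hr x y)
    have qr2 : a q = a r → c q = c r → False := fun x y => hqr (h2 q hq r hr x y)
    have qr3 : b q = b r → c q = c r → False := fun x y => hqr (h3 q hq r hr x y)
    -- the six rigid configurations
    have t1 : a p = a q → b q = b r → c p = c r → False :=
      fun x y z => hpq (h4 p hp q hq r hr x y z.symm)
    have t2 : a p = a q → b p = b r → c q = c r → False :=
      fun x y z => hpq (h4 q hq p hp r hr x.symm y z.symm).symm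
    have t3 : a p = a r → b q = b r → c p = c q → False :=
      fun x y z => hpr (h4 p hp r hr q hq x y.symm z.symm)
    have t4 : a p = a r → b p = b q → c q = c r → False :=
      fun x y z => hpr (h4 r hr p hp q hq x.symm y z).symm
    have t5 : a q = a r → b p = b r → c p = c q → False :=
      fun x y z => hqr (h4 q hq r hr p hp x y.symm z)
    have t6 : a q = a r → b p = b q → c p = c r → False :=
      fun x y z => hqr (h4 r hr q hq p hp x.symm y.symm z).symm
    rcases A with ⟨A1, A2, A3⟩ | ⟨A1, A2, A3⟩ | ⟨A1, A2, A3⟩ | ⟨A1, A2, A3⟩ | ⟨A1, A2, A3, A4⟩ <;>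
    rcases B with ⟨B1, B2, B3⟩ | ⟨B1, B2, B3⟩ | ⟨B1, B2, B3⟩ | ⟨B1, B2, B3⟩ | ⟨B1, B2, B3, B4⟩ <;>
    rcases C with ⟨C1, C2, C3⟩ | ⟨C1, C2, C3⟩ | ⟨C1, C2, C3⟩ | ⟨C1, C2, C3⟩ | ⟨C1, C2, C3, C4⟩ <;>
    first
    | omega
    | exact pq1 A1 B1
    | exact pq2 A1 C1
    | exact pq3 B1 C1
    | exact qr1 A2 B2
    | exact qr2 A2 C2
    | exact qr3 B2 C2
    | exact pr1 A1 B1
    | exact pr2 A1 C1
    | exact pr3 B1 C1
    | exact t1 A1 B2 C1
    | exact t2 A1 B1 C2
    | exact t3 A1 B2 C1
    | exact t4 A1 B1 C2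
    | exact t5 A2 B1 C1
    | exact t6 A2 B1 C1
    | exact pr1 (A1.trans A2) B1
    | exact pr1 A1 (B1.trans B2)
    | exact pr2 (A1.trans A2) C1
    | exact pr2 A1 (C1.trans C2)
    | exact pr3 (B1.trans B2) C1
    | exact pr3 B1 (C1.trans C2)
  · rw [Finset.card_image_of_injOn hinj]

theorem ex63_ge {D R K n : ℕ} (h : 3 * (ball D R).card ≤ n) : (pairsK D R K).card ≤ ex63 n := by
  classical
  rcases Nat.eq_zero_or_pos n with hn | hn
  · have hb : (ball D R).card = 0 := by omega
    have : pairsK D R K = ∅ := by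
      rw [Finset.eq_empty_iff_forall_notMem]
      intro p hp
      rw [mem_pairsK] at hp
      have : p.1 ∈ ball D R := mem_ball.2 hp.1
      rw [Finset.card_eq_zero] at hb
      rw [hb] at this
      simp at this
    rw [this]; simp
  have hcard : Fintype.card (Fin 3 × {x // x ∈ ball D R}) ≤ Fintype.card (Fin n) := by
    rw [Fintype.card_prod, Fintype.card_fin, Fintype.card_coe, Fintype.card_fin]
    exact h
  obtain ⟨φ⟩ := Function.Embedding.nonempty_of_card_le hcard
  let f : Fin 3 → (Fin D → ℤ) → Fin n := fun i x =>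
    if hx : x ∈ ball D R then φ (i, ⟨x, hx⟩) else ⟨0, hn⟩
  have hf : ∀ i j x y, x ∈ ball D R → y ∈ ball D R → f i x = f j y → i = j ∧ x = y := by
    intro i j x y hx hy hxy
    simp only [f, hx, hy, dif_pos] at hxy
    have := φ.injective hxy
    simp only [Prod.mk.injEq, Subtype.mk.injEq] at this
    exact this
  have hneg : ∀ v : Fin D → ℤ, nsq (-v) = nsq v := by
    intro v; unfold nsq
    exact Finset.sum_congr rfl fun i _ => by simp
  have b1 : ∀ p ∈ pairsK D R K, p.1 ∈ ball D R := fun p hp => mem_ball.2 (mem_pairsK.1 hp).1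
  have b2 : ∀ p ∈ pairsK D R K, p.2 ∈ ball D R := fun p hp => mem_ball.2 (mem_pairsK.1 hp).2.1
  have b3 : ∀ p ∈ pairsK D R K, -(p.1 + p.2) ∈ ball D R := fun p hp =>
    mem_ball.2 (by rw [hneg]; exact (mem_pairsK.1 hp).2.2.1)
  refine HG_core (pairsK D R K) (fun p => f 0 p.1) (fun p => f 1 p.2)
    (fun p => f 2 (-(p.1 + p.2))) ?_ ?_ ?_ ?_ ?_ ?_ ?_
  · intro p hp q hq hpq
    exact absurd (hf _ _ _ _ (b1 p hp) (b2 q hq) hpq).1 (by decide)
  · intro p hp q hq hpq
    exact absurd (hf _ _ _ _ (b1 p hp) (b3 q hq) hpq).1 (by decide)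
  · intro p hp q hq hpq
    exact absurd (hf _ _ _ _ (b2 p hp) (b3 q hq) hpq).1 (by decide)
  · intro p hp q hq e1 e2
    exact Prod.ext (hf _ _ _ _ (b1 p hp) (b1 q hq) e1).2 (hf _ _ _ _ (b2 p hp) (b2 q hq) e2).2
  · intro p hp q hq e1 e2
    have k1 := (hf _ _ _ _ (b1 p hp) (b1 q hq) e1).2
    have k2 := (hf _ _ _ _ (b3 p hp) (b3 q hq) e2).2
    refine Prod.ext k1 ?_
    rw [neg_inj, k1] at k2
    exact add_left_cancel k2
  · intro p hp q hq e1 e2
    have k1 := (hf _ _ _ _ (b2 p hp) (b2 q hq) e1).2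
    have k2 := (hf _ _ _ _ (b3 p hp) (b3 q hq) e2).2
    refine Prod.ext ?_ k1
    rw [neg_inj, k1] at k2
    exact add_right_cancel k2
  · intro p hp q hq r hr e1 e2 e3
    have k1 := (hf _ _ _ _ (b1 p hp) (b1 q hq) e1).2
    have k2 := (hf _ _ _ _ (b2 q hq) (b2 r hr) e2).2
    have k3 := (hf _ _ _ _ (b3 r hr) (b3 p hp) e3).2
    have m1 := (mem_pairsK.1 hp).2.2.2
    have m2 := (mem_pairsK.1 hq).2.2.2
    have m3 := (mem_pairsK.1 hr).2.2.2
    have r1 : nsq (q.1 - q.2) = K := m2
    have r2 : nsq (q.1 + q.1 + -(p.1 + p.2)) = K := by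
      rw [← k1, ← m1]
      congr 1
      abel
    have r3 : nsq (q.2 + q.2 + -(p.1 + p.2)) = K := by
      rw [← k3, k2, ← m3, ← hneg (r.1 - r.2)]
      congr 1
      abel
    have key := rigid r1 r2 r3
    rw [neg_inj, k1] at key
    exact Prod.ext k1 (add_left_cancel key)

end Pool.Agent.H480R2.RS
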