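import Mathlib
import Pool.Agent.H480R2.RS.VOL

/-! UD (helper325): lattice points in Euclidean balls. -/

open Finset MeasureTheory

namespace Pool.Agent.H480R2.RS

/-- triangle inequality in `l²` -/
theorem UD_tri {D : ℕ} {a b : Fin D → ℝ} {A B : ℝ} (hA : 0 ≤ A) (hB : 0 ≤ B)
    (ha : ∑ i, a i ^ 2 ≤ A ^ 2) (hb : ∑ i, b i ^ 2 ≤ B ^ 2) :
    ∑ i, (a i + b i) ^ 2 ≤ (A + B) ^ 2 := by
  have h1 : (∑ i, a i * b i) ^ 2 ≤ (∑ i, a i ^ 2) * ∑ i, b i ^ 2 :=
    Finset.sum_mul_sq_le_sq_mul_sq _ _ _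
  have h2 : (∑ i, a i * b i) ^ 2 ≤ (A * B) ^ 2 := by
    refine le_trans h1 ?_
    rw [mul_pow]
    exact mul_le_mul ha hb (Finset.sum_nonneg fun _ _ => sq_nonneg _) (sq_nonneg _)
  have h3 : ∑ i, a i * b i ≤ A * B := by
    have := sq_le_sq.1 h2
    rw [abs_of_nonneg (mul_nonneg hA hB)] at this
    exact le_trans (le_abs_self _) this
  have h4 : ∑ i, (a i + b i) ^ 2 = ∑ i, a i ^ 2 + 2 * ∑ i, a i * b i + ∑ i, b i ^ 2 := by
    rw [Finset.mul_sum, ← Finset.sum_add_distrib, ← Finset.sum_add_distrib]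
    apply Finset.sum_congr rfl
    intro i _
    ring
  rw [h4]
  nlinarith

/-- the half-open unit cube with centre `y` -/
def cube {D : ℕ} (y : Fin D → ℤ) : Set (Fin D → ℝ) :=
  Set.pi Set.univ (fun i => Set.Ico ((y i : ℝ) - 1 / 2) ((y i : ℝ) + 1 / 2))

theorem UD_cube_meas {D : ℕ} (y : Fin D → ℤ) : MeasurableSet (cube y) :=
  MeasurableSet.univ_pi fun _ => measurableSet_Ico

theorem UD_cube_vol {D : ℕ} (y : Fin D → ℤ) : volume (cube y) = 1 := by
  unfold cube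
  rw [Real.volume_pi_Ico]
  have h : ∀ i : Fin D, ENNReal.ofReal ((y i : ℝ) + 1 / 2 - ((y i : ℝ) - 1 / 2)) = 1 := by
    intro i
    rw [show (y i : ℝ) + 1 / 2 - ((y i : ℝ) - 1 / 2) = 1 by ring]
    simp
  rw [Finset.prod_congr rfl (fun i _ => h i)]
  simp

theorem UD_cube_disj {D : ℕ} {y z : Fin D → ℤ} (h : y ≠ z) : Disjoint (cube y) (cube z) := by
  rw [Set.disjoint_left]
  intro w h1 h2
  apply h
  funext i
  have h3 := h1 i (Set.mem_univ i)
  have h4 := h2 i (Set.mem_univ i)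
  rw [Set.mem_Ico] at h3 h4
  have h5 : (y i : ℝ) < z i + 1 := by linarith [h3.1, h4.2]
  have h6 : (z i : ℝ) < y i + 1 := by linarith [h3.2, h4.1]
  have h7 : y i < z i + 1 := by exact_mod_cast h5
  have h8 : z i < y i + 1 := by exact_mod_cast h6
  omega

/-- rounding -/
noncomputable def rnd {D : ℕ} (w : Fin D → ℝ) : Fin D → ℤ := fun i => ⌊w i + 1 / 2⌋

theorem UD_mem_cube {D : ℕ} (w : Fin D → ℝ) : w ∈ cube (rnd w) := by
  intro i _
  rw [Set.mem_Ico]
  have h1 := Int.floor_le (w i + 1 / 2)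
  have h2 := Int.lt_floor_add_one (w i + 1 / 2)
  unfold rnd
  constructor <;> linarith

/-- points of the cube are near its centre -/
theorem UD_cube_near {D : ℕ} {y : Fin D → ℤ} {w : Fin D → ℝ} (hw : w ∈ cube y) :
    ∑ i, (w i - y i) ^ 2 ≤ (√D / 2) ^ 2 := by
  have h : ∀ i, (w i - y i) ^ 2 ≤ 1 / 4 := by
    intro i
    have h3 := hw i (Set.mem_univ i)
    rw [Set.mem_Ico] at h3
    nlinarith [h3.1, h3.2]
  calc ∑ i, (w i - y i) ^ 2 ≤ ∑ _i : Fin D, (1 / 4 : ℝ) := Finset.sum_le_sum fun i _ => h i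
    _ = (√D / 2) ^ 2 := by
      rw [Finset.sum_const, Finset.card_univ, Fintype.card_fin, nsmul_eq_mul, div_pow,
        Real.sq_sqrt (Nat.cast_nonneg D)]
      ring

theorem UD_nsq_cast {D : ℕ} (y : Fin D → ℤ) : ((nsq y : ℤ) : ℝ) = ∑ i, (y i : ℝ) ^ 2 := by
  unfold nsq
  push_cast
  rfl

theorem UD_mem_ball {D R : ℕ} {y : Fin D → ℤ} : y ∈ ball D R ↔ ∑ i, (y i : ℝ) ^ 2 ≤ √R ^ 2 := by
  rw [mem_ball, Real.sq_sqrt (Nat.cast_nonneg R), ← UD_nsq_cast]
  constructor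
  · intro h; exact_mod_cast h
  · intro h; exact_mod_cast h

theorem UD_union_vol {D : ℕ} (S : Finset (Fin D → ℤ)) :
    volume (⋃ y ∈ S, cube y) = S.card := by
  rw [measure_biUnion_finset]
  · simp [UD_cube_vol]
  · intro y _ z _ h
    exact UD_cube_disj h
  · intro y _
    exact UD_cube_meas y

theorem ball_card_le (D R : ℕ) : ((ball D R).card : ℝ) ≤ (√R + √D / 2) ^ D * V D := by
  rw [← vol_rball D (by positivity)]
  have h : (⋃ y ∈ ball D R, cube y) ⊆ rball D (√R + √D / 2) := by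
    intro w hw
    rw [Set.mem_iUnion₂] at hw
    obtain ⟨y, hy, hw⟩ := hw
    have h1 := UD_tri (Real.sqrt_nonneg _) (by positivity) (UD_mem_ball.1 hy) (UD_cube_near hw)
    show ∑ i, w i ^ 2 ≤ _
    refine le_trans (le_of_eq ?_) h1
    apply Finset.sum_congr rfl
    intro i _
    ring
  have h2 := ENNReal.toReal_mono (rball_fin D _) (measure_mono (μ := volume) h)
  rw [UD_union_vol] at h2
  simpa using h2

theorem le_ball_card {D R : ℕ} (h : √D / 2 ≤ √R) :
    (√R - √D / 2) ^ D * V D ≤ ((ball D R).card : ℝ) := by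
  rw [← vol_rball D (by linarith)]
  have h1 : rball D (√R - √D / 2) ⊆ (⋃ y ∈ ball D R, cube y) := by
    intro w hw
    rw [Set.mem_iUnion₂]
    refine ⟨rnd w, ?_, UD_mem_cube w⟩
    rw [UD_mem_ball]
    have h2 : ∑ i, (((rnd w i : ℤ) : ℝ) - w i) ^ 2 ≤ (√D / 2) ^ 2 := by
      refine le_trans (le_of_eq ?_) (UD_cube_near (UD_mem_cube w))
      apply Finset.sum_congr rfl
      intro i _
      ring
    have h3 := UD_tri (by linarith) (by positivity) hw h2
    refine le_trans (le_of_eq ?_) (le_trans h3 (le_of_eq (by ring)))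
    apply Finset.sum_congr rfl
    intro i _
    ring
  have h2 := ENNReal.toReal_mono (by rw [UD_union_vol]; simp) (measure_mono (μ := volume) h1)
  rw [UD_union_vol] at h2
  simpa using h2

end Pool.Agent.H480R2.RS
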