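import Mathlib
import Pool.Agent.H480R2.RS.UD

/-! LENS (helper325): pairs versus volumes of lenses. -/

open Finset MeasureTheory

namespace Pool.Agent.H480R2.RS

theorem LENS_card (D R : ℕ) : (pairs D R).card =
    ∑ x ∈ ball D R, ((ball D R).filter (fun y => nsq (x + y) ≤ R)).card := by
  unfold pairs
  rw [Finset.card_filter, Finset.sum_product]
  apply Finset.sum_congr rfl
  intro x _
  rw [Finset.card_filter]

theorem LENS_one {D R : ℕ} (r τ : ℝ) (hD : √D / 2 ≤ √R)
    (h : (R : ℝ) / 4 + τ + r ^ 2 ≤ (√R - √D / 2) ^ 2) {x : Fin D → ℤ} (hx : x ∈ ball D R) :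
    (volume {w : Fin D → ℝ | w ∈ rball D r ∧ |∑ i, w i * (x i : ℝ)| ≤ τ}).toReal ≤
      (((ball D R).filter (fun y => nsq (x + y) ≤ R)).card : ℝ) := by
  set Y := (ball D R).filter (fun y => nsq (x + y) ≤ R) with hY
  have hx2 : ∑ i, (x i : ℝ) ^ 2 ≤ R := by
    have := UD_mem_ball.1 hx
    rwa [Real.sq_sqrt (Nat.cast_nonneg R)] at this
  have hsub : {w : Fin D → ℝ | w ∈ rball D r ∧ |∑ i, w i * (x i : ℝ)| ≤ τ} ⊆
      (fun w : Fin D → ℝ => w + fun i => -(x i : ℝ) / 2) ⁻¹' (⋃ y ∈ Y, cube y) := by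
    rintro w ⟨hw, hwx⟩
    have hw' : ∑ i, w i ^ 2 ≤ r ^ 2 := hw
    rw [Set.mem_preimage, Set.mem_iUnion₂]
    set u : Fin D → ℝ := w + fun i => -(x i : ℝ) / 2 with hu
    have hui : ∀ i, u i = w i - (x i : ℝ) / 2 := by
      intro i
      rw [hu, Pi.add_apply]
      ring
    have hcube := UD_mem_cube u
    have h2 : ∑ i, (((rnd u i : ℤ) : ℝ) - u i) ^ 2 ≤ (√D / 2) ^ 2 := by
      refine le_trans (le_of_eq ?_) (UD_cube_near hcube)
      apply Finset.sum_congr rfl
      intro i _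
      ring
    have hs := abs_le.1 hwx
    have hu2 : ∑ i, u i ^ 2 ≤ (√R - √D / 2) ^ 2 := by
      have h3 : ∑ i, u i ^ 2 = ∑ i, w i ^ 2 - ∑ i, w i * (x i : ℝ) + (∑ i, (x i : ℝ) ^ 2) / 4 := by
        rw [Finset.sum_div, ← Finset.sum_sub_distrib, ← Finset.sum_add_distrib]
        apply Finset.sum_congr rfl
        intro i _
        rw [hui]
        ring
      rw [h3]
      linarith [hs.1]
    have hv2 : ∑ i, (u i + x i) ^ 2 ≤ (√R - √D / 2) ^ 2 := by
      have h3 : ∑ i, (u i + x i) ^ 2 =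
          ∑ i, w i ^ 2 + ∑ i, w i * (x i : ℝ) + (∑ i, (x i : ℝ) ^ 2) / 4 := by
        rw [Finset.sum_div, ← Finset.sum_add_distrib, ← Finset.sum_add_distrib]
        apply Finset.sum_congr rfl
        intro i _
        rw [hui]
        ring
      rw [h3]
      linarith [hs.2]
    refine ⟨rnd u, ?_, hcube⟩
    rw [hY, Finset.mem_filter]
    constructor
    · rw [UD_mem_ball]
      have h3 := UD_tri (by linarith) (by positivity) hu2 h2
      refine le_trans (le_of_eq ?_) (le_trans h3 (le_of_eq (by ring)))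
      apply Finset.sum_congr rfl
      intro i _
      ring
    · have h4 : x + rnd u ∈ ball D R := by
        rw [UD_mem_ball]
        have h3 := UD_tri (by linarith) (by positivity) hv2 h2
        refine le_trans (le_of_eq ?_) (le_trans h3 (le_of_eq (by ring)))
        apply Finset.sum_congr rfl
        intro i _
        rw [Pi.add_apply]
        push_cast
        ring
      exact mem_ball.1 h4
  have h5 : volume {w : Fin D → ℝ | w ∈ rball D r ∧ |∑ i, w i * (x i : ℝ)| ≤ τ} ≤ (Y.card : ENNReal) := by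
    refine le_trans (measure_mono hsub) ?_
    rw [measure_preimage_add_right, UD_union_vol]
  have h6 := ENNReal.toReal_mono (by simp) h5
  simpa using h6

theorem pairs_ge {D R : ℕ} (r τ : ℝ) (hr : 0 ≤ r) (hD : √D / 2 ≤ √R)
    (h : (R : ℝ) / 4 + τ + r ^ 2 ≤ (√R - √D / 2) ^ 2) :
    ∑ x ∈ ball D R, (volume {w : Fin D → ℝ | w ∈ rball D r ∧ |∑ i, w i * (x i : ℝ)| ≤ τ}).toReal
      ≤ ((pairs D R).card : ℝ) := by
  have _ := hr
  rw [LENS_card]
  push_cast
  exact Finset.sum_le_sum fun x hx => LENS_one r τ hD h hx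

end Pool.Agent.H480R2.RS
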