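import Mathlib
import Pool.Agent.H480R2.RS.Defs
import Pool.Agent.H480R2.RS.VOL
import Pool.Agent.H480R2.RS.UD
import Pool.Agent.H480R2.RS.LENS
import Pool.Agent.H480R2.RS.CHEB

/-! From the geometric lemmas to the lower bound for the number of pairs -/

open Finset MeasureTheory

namespace Pool.Agent.H480R2.RS

theorem sqrt_facts {D R : ℕ} (hD : 1 ≤ D) (hR : 16 * D ^ 4 ≤ R) :
    4 * (√(D : ℝ)) ^ 4 ≤ √(R : ℝ) ∧ 1 ≤ √(D : ℝ) ∧ (√(D : ℝ)) ^ 2 = D ∧ (√(R : ℝ)) ^ 2 = R := by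
  have h1 : (√(D : ℝ)) ^ 2 = D := Real.sq_sqrt (Nat.cast_nonneg D)
  have h2 : (√(R : ℝ)) ^ 2 = R := Real.sq_sqrt (Nat.cast_nonneg R)
  have h3 : 1 ≤ √(D : ℝ) := by
    rw [Real.one_le_sqrt]; exact_mod_cast hD
  refine ⟨?_, h3, h1, h2⟩
  apply Real.le_sqrt_of_sq_le
  have : (4 * (√(D : ℝ)) ^ 4) ^ 2 = 16 * (D : ℝ) ^ 4 := by
    have : (4 * (√(D : ℝ)) ^ 4) ^ 2 = 16 * ((√(D : ℝ)) ^ 2) ^ 4 := by ring
    rw [this, h1]
  rw [this]
  exact_mod_cast hR

set_option maxHeartbeats 4000000 in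
theorem pairs_lower {D R : ℕ} (hD : 64 ≤ D) (hR : 16 * D ^ 4 ≤ R) :
    (1 / 2) * ((ball D R).card : ℝ) ^ 2 * (√3 / 2) ^ D * Real.exp (-3 * √(D : ℝ)) ≤
      ((pairs D R).card : ℝ) := by
  obtain ⟨h4, h1, hs2, hρ2⟩ := sqrt_facts (by omega : 1 ≤ D) hR
  set s := √(D : ℝ) with hs
  set ρ := √(R : ℝ) with hρ
  have hs8 : 8 ≤ s := by
    apply Real.le_sqrt_of_sq_le
    have : (64 : ℝ) ≤ D := by exact_mod_cast hD
    linarith
  have hspos : 0 < s := by linarith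
  have hρpos : 0 < ρ := lt_of_lt_of_le (by positivity) h4
  have h3 : √(3 : ℝ) ^ 2 = 3 := Real.sq_sqrt (by norm_num)
  have h3pos : 0 < √(3 : ℝ) := Real.sqrt_pos.2 (by norm_num)
  have h3le : √(3 : ℝ) ≤ 1.7321 := by
    rw [Real.sqrt_le_left (by norm_num)]; norm_num
  -- t = 3 / s
  set t := 3 / s with ht
  have htpos : 0 < t := by positivity
  have htle : t ≤ 3 / 8 := by
    rw [ht, div_le_div_iff₀ hspos (by norm_num)]; linarith
  have hts : t * s = 3 := by rw [ht]; field_simp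
  set q := √(1 - t) with hq
  have hq2 : q ^ 2 = 1 - t := Real.sq_sqrt (by linarith)
  have hqpos : 0 < q := Real.sqrt_pos.2 (by linarith)
  have hqle : q ≤ 1 := by
    rw [hq]; apply Real.sqrt_le_one.2; linarith
  set r := √3 / 2 * ρ * q with hr
  have hrpos : 0 < r := by positivity
  set τ := 2 * r * ρ / s with hτ
  have hτpos : 0 < τ := by positivity
  have hDR : s / 2 ≤ ρ := by
    have : s ≤ s ^ 4 := by
      calc s = s * 1 := by ring
        _ ≤ s * s ^ 3 := by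
            apply mul_le_mul_of_nonneg_left _ hspos.le
            exact one_le_pow₀ h1
        _ = s ^ 4 := by ring
    linarith
  have hcond : (R : ℝ) / 4 + τ + r ^ 2 ≤ (ρ - s / 2) ^ 2 := by
    have hr2 : r ^ 2 = 3 / 4 * ρ ^ 2 * (1 - t) := by
      rw [hr, mul_pow, mul_pow, hq2, div_pow, h3]; ring
    have hτle : τ ≤ √3 * ρ ^ 2 / s := by
      rw [hτ]
      apply div_le_div_of_nonneg_right _ hspos.le
      have : r ≤ √3 / 2 * ρ := by
        rw [hr]
        calc √3 / 2 * ρ * q ≤ √3 / 2 * ρ * 1 := by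
              apply mul_le_mul_of_nonneg_left hqle (by positivity)
          _ = √3 / 2 * ρ := by ring
      nlinarith
    have hτ3 : τ ≤ √3 / 3 * t * ρ ^ 2 := by
      calc τ ≤ √3 * ρ ^ 2 / s := hτle
        _ = √3 / 3 * t * ρ ^ 2 := by rw [ht]; ring
    rw [← hρ2, hr2]
    -- need (3/4 - √3/3) t ρ^2 ≥ ρ s
    have hkey : ρ * s ≤ (3 / 4 - √3 / 3) * t * ρ ^ 2 := by
      have e1 : (0.17 : ℝ) ≤ 3 / 4 - √3 / 3 := by linarith
      have e2 : s ^ 2 ≤ 0.51 * ρ := by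
        have : s ^ 2 ≤ s ^ 4 := pow_le_pow_right₀ h1 (by norm_num)
        nlinarith
      have e3 : s ≤ 0.17 * t * ρ := by
        have : s = t * s ^ 2 / 3 := by
          have : t * s ^ 2 = 3 * s := by
            calc t * s ^ 2 = (t * s) * s := by ring
              _ = 3 * s := by rw [hts]
          linarith
        rw [this]
        nlinarith
      calc ρ * s ≤ ρ * (0.17 * t * ρ) := by gcongr
        _ = 0.17 * (t * ρ ^ 2) := by ring
        _ ≤ (3 / 4 - √3 / 3) * (t * ρ ^ 2) := by gcongr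
        _ = _ := by ring
    have a1 : τ ≤ √3 / 3 * (t * ρ ^ 2) := by linarith
    have a2 : ρ * s ≤ 3 / 4 * (t * ρ ^ 2) - √3 / 3 * (t * ρ ^ 2) := by
      calc ρ * s ≤ (3 / 4 - √3 / 3) * t * ρ ^ 2 := hkey
        _ = _ := by ring
    have a3 : (ρ - s / 2) ^ 2 = ρ ^ 2 - ρ * s + s ^ 2 / 4 := by ring
    have a4 : 3 / 4 * ρ ^ 2 * (1 - t) = 3 / 4 * ρ ^ 2 - 3 / 4 * (t * ρ ^ 2) := by ring
    rw [a3, a4]
    linarith [sq_nonneg s]
  have hA := pairs_ge (D := D) (R := R) r τ hrpos.le hDR hcond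
  have hB := cheb (D := D) (R := R) (by omega) r τ hrpos.le hτpos
  have hfac : 1 - r ^ 2 * R / (D * τ ^ 2) = 3 / 4 := by
    have : r ^ 2 * R / (D * τ ^ 2) = 1 / 4 := by
      rw [← hρ2, ← hs2, hτ]
      field_simp
      ring
    rw [this]; norm_num
  rw [hfac] at hB
  have hC := ball_card_le D R
  have hV := V_pos D
  set b := ((ball D R).card : ℝ) with hb
  have hbnn : 0 ≤ b := Nat.cast_nonneg _
  -- b * r^D * V * 3/4 ≤ pairs
  have h5 : b * (r ^ D * V D) * (3 / 4) ≤ ((pairs D R).card : ℝ) := hB.trans hA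
  refine le_trans ?_ h5
  have hden : 0 < ρ + s / 2 := by positivity
  -- r^D ≥ (7/8) (√3/2)^D exp(-3 s) (ρ + s/2)^D
  have hrD : (7 / 8) * ((√3 / 2) ^ D * Real.exp (-3 * s)) * (ρ + s / 2) ^ D ≤ r ^ D := by
    have hqD : Real.exp (-3 * s) ≤ q ^ D := by
      have e1 : Real.exp (-t) ≤ q := by
        apply Real.le_sqrt_of_sq_le
        rw [← Real.exp_nat_mul]
        -- exp(-2t) ≤ 1 - t
        have e2 : (1 - t) * Real.exp (2 * t) ≥ 1 := by
          have := Real.add_one_le_exp (2 * t)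
          nlinarith
        have e3 : Real.exp (((2 : ℕ) : ℝ) * -t) * Real.exp (2 * t) = 1 := by
          rw [← Real.exp_add]; simp
        have e4 := Real.exp_pos (2 * t)
        nlinarith
      calc Real.exp (-3 * s) = Real.exp (-t) ^ D := by
            rw [← Real.exp_nat_mul]
            congr 1
            rw [← hs2]
            calc -3 * s = -(t * s) * s := by rw [hts]; 
              _ = s ^ 2 * -t := by ring
        _ ≤ q ^ D := pow_le_pow_left₀ (Real.exp_pos _).le e1 D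
    have hρD : 7 / 8 * (ρ + s / 2) ^ D ≤ ρ ^ D := by
      have e1 : ρ / (ρ + s / 2) = 1 + (-(s / 2) / (ρ + s / 2)) := by field_simp; ring
      have e2 : 1 + (D : ℝ) * (-(s / 2) / (ρ + s / 2)) ≤ (ρ / (ρ + s / 2)) ^ D := by
        rw [e1]
        apply one_add_mul_le_pow
        rw [le_div_iff₀ hden]; nlinarith
      have e3 : (7 : ℝ) / 8 ≤ 1 + (D : ℝ) * (-(s / 2) / (ρ + s / 2)) := by
        have : (D : ℝ) * (s / 2) / (ρ + s / 2) ≤ 1 / 8 := by
          rw [div_le_iff₀ hden, ← hs2]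
          have : 8 * s ^ 3 ≤ s ^ 4 := by
            calc 8 * s ^ 3 ≤ s * s ^ 3 := by gcongr
              _ = s ^ 4 := by ring
          have h0 : 0 ≤ s ^ 3 := by positivity
          have e : s ^ 2 * (s / 2) = s ^ 3 / 2 := by ring
          rw [e]; linarith
        have e : (D : ℝ) * (-(s / 2) / (ρ + s / 2)) = -((D : ℝ) * (s / 2) / (ρ + s / 2)) := by ring
        rw [e]; linarith
      have e4 : 7 / 8 ≤ (ρ / (ρ + s / 2)) ^ D := e3.trans e2
      rw [div_pow, le_div_iff₀ (by positivity)] at e4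
      exact e4
    calc (7 / 8) * ((√3 / 2) ^ D * Real.exp (-3 * s)) * (ρ + s / 2) ^ D
        = (√3 / 2) ^ D * Real.exp (-3 * s) * (7 / 8 * (ρ + s / 2) ^ D) := by ring
      _ ≤ (√3 / 2) ^ D * q ^ D * ρ ^ D := by gcongr
      _ = r ^ D := by rw [hr, mul_pow, mul_pow]; ring
  have hVb : b * b ≤ b * ((ρ + s / 2) ^ D * V D) := mul_le_mul_of_nonneg_left hC hbnn
  have hE : 0 ≤ (√3 / 2) ^ D * Real.exp (-3 * s) := by positivity
  calc 1 / 2 * b ^ 2 * (√3 / 2) ^ D * Real.exp (-3 * s)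
      = 1 / 2 * ((√3 / 2) ^ D * Real.exp (-3 * s)) * (b * b) := by ring
    _ ≤ 1 / 2 * ((√3 / 2) ^ D * Real.exp (-3 * s)) * (b * ((ρ + s / 2) ^ D * V D)) := by gcongr
    _ ≤ (3 / 4 * (7 / 8)) * ((√3 / 2) ^ D * Real.exp (-3 * s)) * (b * ((ρ + s / 2) ^ D * V D)) := by
        gcongr
        norm_num
    _ = b * (((7 / 8) * ((√3 / 2) ^ D * Real.exp (-3 * s)) * (ρ + s / 2) ^ D) * V D) * (3 / 4) := by ring
    _ ≤ b * (r ^ D * V D) * (3 / 4) := by gcongr

end Pool.Agent.H480R2.RS
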