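import Mathlib
import Pool.Agent.H480R2.RS.Ratio

/-! Choice of the parameters -/

open Finset MeasureTheory

namespace Pool.Agent.H480R2.RS

theorem le_of_sq_le_sq' {a b : ℝ} (h : a ^ 2 ≤ b ^ 2) (hb : 0 ≤ b) : a ≤ b := by
  nlinarith [sq_nonneg (a + b)]

theorem ball_zero_card (D : ℕ) : (ball D 0).card = 1 := by
  rw [Finset.card_eq_one]
  refine ⟨0, ?_⟩
  ext x
  rw [mem_ball, Finset.mem_singleton]
  constructor
  · intro h
    have h0 : nsq x = 0 := le_antisymm (by simpa using h) (nsq_nonneg x)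
    funext i
    have := (Finset.sum_eq_zero_iff_of_nonneg (fun i _ => sq_nonneg (x i))).1 h0 i (Finset.mem_univ i)
    simpa using this
  · rintro rfl
    simp [nsq]

theorem ball_large {D : ℕ} (hD : 1 ≤ D) (N : ℕ) : N < (ball D (N ^ 2)).card := by
  classical
  have hinj : ((Finset.range (N + 1)).image
      (fun k : ℕ => (Function.update (0 : Fin D → ℤ) ⟨0, hD⟩ (k : ℤ)))).card = N + 1 := by
    rw [Finset.card_image_of_injective, Finset.card_range]
    intro a b hab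
    have := congrFun hab ⟨0, hD⟩
    simpa using this
  have hsub : (Finset.range (N + 1)).image
      (fun k : ℕ => (Function.update (0 : Fin D → ℤ) ⟨0, hD⟩ (k : ℤ))) ⊆ ball D (N ^ 2) := by
    intro x hx
    rw [Finset.mem_image] at hx
    obtain ⟨k, hk, rfl⟩ := hx
    rw [Finset.mem_range] at hk
    rw [mem_ball]
    have : nsq (Function.update (0 : Fin D → ℤ) ⟨0, hD⟩ (k : ℤ)) = (k : ℤ) ^ 2 := by
      unfold nsq
      rw [Finset.sum_eq_single ⟨0, hD⟩]
      · simp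
      · intro b _ hb
        rw [Function.update_of_ne hb]; simp
      · intro h; exact absurd (Finset.mem_univ _) h
    rw [this]
    have : k ≤ N := by omega
    push_cast
    exact_mod_cast Nat.pow_le_pow_left this 2
  have := Finset.card_le_card hsub
  omega

theorem exists_R {D N : ℕ} (hD : 1 ≤ D) (hN : 3 ≤ N) :
    ∃ R, 3 * (ball D R).card ≤ N ∧ N < 3 * (ball D (R + 1)).card := by
  classical
  have hex : ∃ R, N < 3 * (ball D R).card := ⟨N ^ 2, by have := ball_large hD N; omega⟩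
  have h0 : Nat.find hex ≠ 0 := by
    intro h
    have := Nat.find_spec hex
    rw [h, ball_zero_card] at this
    omega
  obtain ⟨R, hR⟩ := Nat.exists_eq_succ_of_ne_zero h0
  refine ⟨R, ?_, ?_⟩
  · have := Nat.find_min hex (m := R) (by omega)
    omega
  · have := Nat.find_spec hex
    rw [hR] at this
    exact this

/-- the ball contains a cube -/
theorem cube_le {D R : ℕ} (hD : 1 ≤ D) : (√((R : ℝ) / D)) ^ D ≤ ((ball D R).card : ℝ) := by
  have hDpos : (0 : ℝ) < D := by exact_mod_cast hD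
  set m := ⌊√((R : ℝ) / D)⌋₊ with hm
  have hsub : (Fintype.piFinset fun _ : Fin D => Finset.Icc (0 : ℤ) m) ⊆ ball D R := by
    intro x hx
    rw [Fintype.mem_piFinset] at hx
    rw [mem_ball]
    have h1 : ∀ i, x i ^ 2 ≤ (m : ℤ) ^ 2 := by
      intro i
      have := hx i
      rw [Finset.mem_Icc] at this
      nlinarith [this.1, this.2]
    have h2 : nsq x ≤ D * (m : ℤ) ^ 2 := by
      unfold nsq
      calc ∑ i, x i ^ 2 ≤ ∑ _i : Fin D, (m : ℤ) ^ 2 := Finset.sum_le_sum fun i _ => h1 i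
        _ = D * (m : ℤ) ^ 2 := by simp
    have h3 : (D : ℝ) * (m : ℝ) ^ 2 ≤ R := by
      have hle : (m : ℝ) ≤ √((R : ℝ) / D) := Nat.floor_le (Real.sqrt_nonneg _)
      have hsq : (m : ℝ) ^ 2 ≤ (R : ℝ) / D := by
        calc (m : ℝ) ^ 2 ≤ (√((R : ℝ) / D)) ^ 2 := pow_le_pow_left₀ (Nat.cast_nonneg _) hle 2
          _ = (R : ℝ) / D := Real.sq_sqrt (by positivity)
      rw [le_div_iff₀ hDpos] at hsq
      linarith
    have h4 : (D : ℤ) * (m : ℤ) ^ 2 ≤ R := by exact_mod_cast h3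
    exact h2.trans h4
  have hcard := Finset.card_le_card hsub
  rw [Fintype.card_piFinset_const] at hcard
  have hc : (Finset.Icc (0 : ℤ) m).card = m + 1 := by simp
  rw [hc] at hcard
  calc (√((R : ℝ) / D)) ^ D ≤ ((m : ℝ) + 1) ^ D :=
        pow_le_pow_left₀ (Real.sqrt_nonneg _) (Nat.lt_floor_add_one _).le D
    _ ≤ ((ball D R).card : ℝ) := by exact_mod_cast hcard

theorem grow {D R : ℕ} (hD : 1 ≤ D) (hR : 16 * D ^ 4 ≤ R) :
    ((ball D (R + 1)).card : ℝ) ≤ 2 * ((ball D R).card : ℝ) := by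
  obtain ⟨h4, h1, hs2, hρ2⟩ := sqrt_facts hD hR
  have hU := ball_card_le D (R + 1)
  set s := √(D : ℝ) with hs
  set ρ := √(R : ℝ) with hρ
  have hspos : 0 < s := by linarith
  have hs4 : s ≤ s ^ 4 := by
    calc s = s * 1 := by ring
      _ ≤ s * s ^ 3 := by
          apply mul_le_mul_of_nonneg_left _ hspos.le
          exact one_le_pow₀ h1
      _ = s ^ 4 := by ring
  have hρpos : 0 < ρ := lt_of_lt_of_le (by positivity) h4
  have hL := le_ball_card (D := D) (R := R) (by linarith : s / 2 ≤ ρ)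
  have hV := V_pos D
  have hρ1 : √((R + 1 : ℕ) : ℝ) ≤ ρ + 1 / 2 * (1 / 4) * 4 := by
    rw [Real.sqrt_le_left (by positivity)]
    push_cast
    nlinarith
  have hd : 0 < ρ - s / 2 := by linarith
  have hbase : √((R + 1 : ℕ) : ℝ) + s / 2 ≤ (ρ - s / 2) * (1 + (s + 1 / 2) / (ρ - s / 2)) := by
    have : (ρ - s / 2) * (1 + (s + 1 / 2) / (ρ - s / 2)) = ρ - s / 2 + (s + 1 / 2) := by
      rw [mul_add, mul_one, mul_div_cancel₀ _ hd.ne']
    rw [this]; linarith
  have hpow : (1 + (s + 1 / 2) / (ρ - s / 2)) ^ D ≤ 2 := by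
    have e1 : 1 + (s + 1 / 2) / (ρ - s / 2) ≤ Real.exp ((s + 1 / 2) / (ρ - s / 2)) := by
      have := Real.add_one_le_exp ((s + 1 / 2) / (ρ - s / 2)); linarith
    have e2 : (D : ℝ) * ((s + 1 / 2) / (ρ - s / 2)) ≤ 1 / 2 := by
      rw [← mul_div_assoc, div_le_iff₀ hd, ← hs2]
      have : s ^ 3 ≤ s ^ 4 := pow_le_pow_right₀ h1 (by norm_num)
      have : s ^ 2 ≤ s ^ 4 := pow_le_pow_right₀ h1 (by norm_num)
      nlinarith
    calc (1 + (s + 1 / 2) / (ρ - s / 2)) ^ D ≤ Real.exp ((s + 1 / 2) / (ρ - s / 2)) ^ D :=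
          pow_le_pow_left₀ (by positivity) e1 D
      _ = Real.exp ((D : ℝ) * ((s + 1 / 2) / (ρ - s / 2))) := by rw [← Real.exp_nat_mul]
      _ ≤ Real.exp (1 / 2) := Real.exp_le_exp.2 e2
      _ ≤ 2 := by
          have h := Real.exp_one_lt_d9
          have : Real.exp (1 / 2) ^ 2 = Real.exp 1 := by rw [← Real.exp_nat_mul]; norm_num
          have hp := Real.exp_pos (1 / 2)
          nlinarith
  calc ((ball D (R + 1)).card : ℝ) ≤ (√((R + 1 : ℕ) : ℝ) + s / 2) ^ D * V D := hU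
    _ ≤ ((ρ - s / 2) * (1 + (s + 1 / 2) / (ρ - s / 2))) ^ D * V D := by
        gcongr
    _ = (1 + (s + 1 / 2) / (ρ - s / 2)) ^ D * ((ρ - s / 2) ^ D * V D) := by rw [mul_pow]; ring
    _ ≤ 2 * ((ball D R).card : ℝ) := by
        apply mul_le_mul hpow hL _ (by norm_num)
        have : 0 ≤ (ρ - s / 2) ^ D := pow_nonneg hd.le D
        positivity

theorem log43_ge : (2 : ℝ) / 7 ≤ Real.log (4 / 3) := by
  rw [Real.le_log_iff_exp_le (by norm_num)]
  have h := Real.exp_one_lt_d9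
  have h7 : Real.exp (2 / 7) ^ 7 = Real.exp 1 ^ 2 := by
    rw [← Real.exp_nat_mul, ← Real.exp_nat_mul]; norm_num
  have h1 : Real.exp (2 / 7) ^ 7 ≤ (4 / 3 : ℝ) ^ 7 := by
    rw [h7]
    have hp := Real.exp_pos 1
    calc Real.exp 1 ^ 2 ≤ (2.7182818286 : ℝ) ^ 2 := pow_le_pow_left₀ hp.le h.le 2
      _ ≤ (4 / 3 : ℝ) ^ 7 := by norm_num
  exact le_of_pow_le_pow_left₀ (by norm_num) (by norm_num) h1

theorem log43_le : Real.log (4 / 3) ≤ 1 / 3 := by
  have := Real.log_le_sub_one_of_pos (show (0 : ℝ) < 4 / 3 by norm_num)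
  linarith

/-- the number of triples -/
theorem param : ∃ n₀ : ℕ, ∀ N : ℕ, n₀ ≤ N → ∃ D R K : ℕ, 3 * (ball D R).card ≤ N ∧
    (N : ℝ) ^ 2 * Real.exp (-(2 * √(Real.log (4 / 3) * Real.log N)) - 11 * (Real.log N) ^ ((1 : ℝ) / 4))
      ≤ ((pairsK D R K).card : ℝ) := by
  refine ⟨⌈Real.exp (40 ^ 4)⌉₊ + 3, ?_⟩
  intro N hN
  have hN3 : 3 ≤ N := by omega
  have hNpos : (0 : ℝ) < N := by exact_mod_cast (by omega : 0 < N)
  set ℓ := Real.log (4 / 3) with hℓ
  have hℓ1 : 2 / 7 ≤ ℓ := log43_ge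
  have hℓ2 : ℓ ≤ 1 / 3 := log43_le
  have hℓpos : 0 < ℓ := by linarith
  set L := Real.log N with hL
  have hexpN : Real.exp (40 ^ 4) ≤ N := by
    have h1 := Nat.le_ceil (Real.exp (40 ^ 4))
    have h0 : ⌈Real.exp (40 ^ 4)⌉₊ ≤ N := le_trans (Nat.le_add_right _ 3) hN
    have h2 : ((⌈Real.exp (40 ^ 4)⌉₊ : ℕ) : ℝ) ≤ N := Nat.cast_le.2 h0
    linarith
  have hL40 : (40 : ℝ) ^ 4 ≤ L := by
    rw [hL, Real.le_log_iff_exp_le hNpos]; exact hexpN
  have hLpos : 0 < L := by linarith [hL40, (by norm_num : (0 : ℝ) < 40 ^ 4)]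
  set u := L ^ ((1 : ℝ) / 4) with hu
  have hu4 : u ^ 4 = L := by
    rw [hu, ← Real.rpow_natCast, ← Real.rpow_mul hLpos.le]; norm_num
  have hupos : 0 < u := Real.rpow_pos_of_pos hLpos _
  have hu40 : 40 ≤ u := by
    by_contra hcon
    push Not at hcon
    have : u ^ 4 < 40 ^ 4 := pow_lt_pow_left₀ hcon hupos.le (by norm_num)
    linarith
  set g := √(ℓ * L) with hg
  have hg2 : g ^ 2 = ℓ * L := Real.sq_sqrt (by positivity)
  have hgpos : 0 < g := Real.sqrt_pos.2 (by positivity)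
  set D := ⌈2 * g / ℓ⌉₊ with hD
  have hD1 : 2 * g / ℓ ≤ D := Nat.le_ceil _
  have hD2 : (D : ℝ) < 2 * g / ℓ + 1 := Nat.ceil_lt_add_one (by positivity)
  have hDpos : (0 : ℝ) < D := lt_of_lt_of_le (by positivity) hD1
  have hDu : (D : ℝ) ≤ 4 * u ^ 2 := by
    have h1 : 2 * g / ℓ ≤ 3.75 * u ^ 2 := by
      rw [div_le_iff₀ hℓpos]
      apply le_of_sq_le_sq' _ (by positivity)
      rw [mul_pow, hg2, ← hu4]
      have : (3.75 * u ^ 2 * ℓ) ^ 2 = 14.0625 * ℓ * (ℓ * u ^ 4) := by ring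
      rw [this]
      have h5 : 0 ≤ ℓ * u ^ 4 := by positivity
      nlinarith
    nlinarith
  have hDl : 3 * u ^ 2 ≤ D := by
    refine le_trans ?_ hD1
    rw [le_div_iff₀ hℓpos]
    apply le_of_sq_le_sq' _ (by positivity)
    have e1 : (3 * u ^ 2 * ℓ) ^ 2 = 9 * ℓ * (ℓ * u ^ 4) := by ring
    have e2 : (2 * g) ^ 2 = 4 * (ℓ * u ^ 4) := by rw [mul_pow, hg2, hu4]; ring
    rw [e1, e2]
    have h5 : 0 ≤ ℓ * u ^ 4 := by positivity
    nlinarith
  have hD64 : 64 ≤ D := by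
    have : (64 : ℝ) ≤ D := by nlinarith
    exact_mod_cast this
  set s := √(D : ℝ) with hs
  have hs2 : s ^ 2 = D := Real.sq_sqrt hDpos.le
  have hspos : 0 < s := Real.sqrt_pos.2 hDpos
  have hsu : s ≤ 2 * u := by
    apply Real.sqrt_le_iff.2
    refine ⟨by positivity, ?_⟩
    nlinarith
  have hlogD : Real.log D ≤ 2 * s := by
    have h1 : Real.log D = 2 * Real.log s := by
      rw [← hs2, Real.log_pow]; norm_num
    have h2 := Real.log_le_sub_one_of_pos hspos
    rw [h1]; linarith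
  obtain ⟨R, hR1, hR2⟩ := exists_R (by omega : 1 ≤ D) hN3
  -- R is large
  have hRbig : 16 * D ^ 4 ≤ R := by
    by_contra hcon
    push Not at hcon
    have hU := ball_card_le D (R + 1)
    have hV := V_le D
    have hV0 := V_pos D
    have hsq : √((R + 1 : ℕ) : ℝ) ≤ 4 * (D : ℝ) ^ 2 := by
      rw [Real.sqrt_le_left (by positivity)]
      have : R + 1 ≤ 16 * D ^ 4 := by omega
      calc ((R + 1 : ℕ) : ℝ) ≤ ((16 * D ^ 4 : ℕ) : ℝ) := by exact_mod_cast this
        _ = (4 * (D : ℝ) ^ 2) ^ 2 := by push_cast; ring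
    have hsD : s / 2 ≤ (1 / 2) * (D : ℝ) ^ 2 := by
      have : (64 : ℝ) ≤ D := by exact_mod_cast hD64
      nlinarith
    have h1 : ((ball D (R + 1)).card : ℝ) ≤ (9 * (D : ℝ) ^ 2) ^ D := by
      calc ((ball D (R + 1)).card : ℝ) ≤ (√((R + 1 : ℕ) : ℝ) + s / 2) ^ D * V D := hU
        _ ≤ (4.5 * (D : ℝ) ^ 2) ^ D * 2 ^ D := by
            apply mul_le_mul _ hV hV0.le (by positivity)
            apply pow_le_pow_left₀ (by positivity)
            linarith
        _ = (9 * (D : ℝ) ^ 2) ^ D := by rw [← mul_pow]; ring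
    have h2 : (N : ℝ) < 3 * (9 * (D : ℝ) ^ 2) ^ D := by
      have : (N : ℝ) < 3 * ((ball D (R + 1)).card : ℝ) := by exact_mod_cast hR2
      linarith
    have h3 : L < Real.log 3 + D * (Real.log 9 + 2 * Real.log D) := by
      have := Real.log_lt_log hNpos h2
      rw [Real.log_mul (by norm_num) (by positivity), Real.log_pow, Real.log_mul (by norm_num) (by positivity),
        Real.log_pow] at this
      push_cast at this
      exact this
    have hl3 : Real.log 3 ≤ 2 := by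
      have := Real.log_le_sub_one_of_pos (show (0 : ℝ) < 3 by norm_num); linarith
    have hl9 : Real.log 9 ≤ 4 := by
      have : Real.log 9 = 2 * Real.log 3 := by
        rw [show (9 : ℝ) = 3 ^ 2 by norm_num, Real.log_pow]; norm_num
      rw [this]; linarith
    have h4 : L < 2 + 4 * u ^ 2 * (4 + 4 * (2 * u)) := by
      have : (D : ℝ) * (Real.log 9 + 2 * Real.log D) ≤ 4 * u ^ 2 * (4 + 4 * (2 * u)) := by
        have hin : Real.log 9 + 2 * Real.log D ≤ 4 + 4 * (2 * u) := by linarith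
        calc (D : ℝ) * (Real.log 9 + 2 * Real.log D) ≤ (D : ℝ) * (4 + 4 * (2 * u)) := by gcongr
          _ ≤ 4 * u ^ 2 * (4 + 4 * (2 * u)) := by gcongr
      linarith
    rw [← hu4] at h4
    have h5 : 40 * u ^ 3 ≤ u ^ 4 := by
      calc 40 * u ^ 3 ≤ u * u ^ 3 := by gcongr
        _ = u ^ 4 := by ring
    have h6 : 40 * u ^ 2 ≤ u ^ 3 := by
      calc 40 * u ^ 2 ≤ u * u ^ 2 := by gcongr
        _ = u ^ 3 := by ring
    have h7 : 1 ≤ u ^ 2 := one_le_pow₀ (by linarith)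
    nlinarith
  have hD1' : 1 ≤ D := by omega
  have hgrow := grow hD1' hRbig
  set b := ((ball D R).card : ℝ) with hb
  have hbN : (N : ℝ) / 6 ≤ b := by
    have : (N : ℝ) < 3 * ((ball D (R + 1)).card : ℝ) := by exact_mod_cast hR2
    linarith
  have hbN2 : 3 * b ≤ N := by
    have : ((3 * (ball D R).card : ℕ) : ℝ) ≤ N := Nat.cast_le.2 hR1
    push_cast at this
    exact this
  obtain ⟨K, hK⟩ := exists_K D R
  refine ⟨D, R, K, hR1, ?_⟩
  have hP := pairs_lower hD64 hRbig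
  have hRpos : (0 : ℝ) < R := by
    have : 0 < 16 * D ^ 4 := by positivity
    exact_mod_cast (by omega : 0 < R)
  have hR1r : (1 : ℝ) ≤ R := by
    have : 0 < 16 * D ^ 4 := by positivity
    exact_mod_cast (by omega : 1 ≤ R)
  -- upper bound for R
  have hRup : (R : ℝ) ≤ D * Real.exp (2 * L / D) := by
    have hc := cube_le (R := R) hD1'
    have h1 : (√((R : ℝ) / D)) ^ D ≤ N := by
      refine hc.trans ?_
      have : 0 ≤ b := Nat.cast_nonneg _
      linarith
    have h2 : (D : ℝ) * Real.log (√((R : ℝ) / D)) ≤ L := by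
      have hpos : 0 < √((R : ℝ) / D) := Real.sqrt_pos.2 (by positivity)
      have := Real.log_le_log (by positivity) h1
      rwa [Real.log_pow] at this
    rw [Real.log_sqrt (by positivity)] at h2
    have h3 : Real.log ((R : ℝ) / D) ≤ 2 * L / D := by
      rw [le_div_iff₀ hDpos]; linarith
    have h4 : (R : ℝ) / D ≤ Real.exp (2 * L / D) := by
      rwa [← Real.log_le_iff_le_exp (by positivity)]
    rw [div_le_iff₀ hDpos] at h4
    linarith
  set T := ((pairsK D R K).card : ℝ) with hT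
  have hPT : ((pairs D R).card : ℝ) ≤ (5 * (D * Real.exp (2 * L / D))) * T := by
    have h1 : ((pairs D R).card : ℝ) ≤ (4 * R + 1) * T := by
      have : ((pairs D R).card : ℝ) ≤ (((4 * R + 1) * (pairsK D R K).card : ℕ) : ℝ) := by exact_mod_cast hK
      push_cast at this
      exact this
    have hTnn : 0 ≤ T := Nat.cast_nonneg _
    refine h1.trans ?_
    apply mul_le_mul_of_nonneg_right _ hTnn
    linarith
  have h34 : (√3 / 2 : ℝ) ^ D = Real.exp (-(D * ℓ / 2)) := by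
    have e1 : Real.log (√3 / 2) = -(ℓ / 2) := by
      rw [Real.log_div (by positivity) (by norm_num), Real.log_sqrt (by norm_num), hℓ,
        Real.log_div (by norm_num) (by norm_num), show (4 : ℝ) = 2 ^ 2 by norm_num, Real.log_pow]
      push_cast; ring
    have e2 : (√3 / 2 : ℝ) = Real.exp (-(ℓ / 2)) := by
      rw [← e1, Real.exp_log (by positivity)]
    rw [e2, ← Real.exp_nat_mul]
    congr 1; ring
  rw [h34] at hP
  have hDexp : (D : ℝ) = Real.exp (Real.log D) := (Real.exp_log hDpos).symm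
  -- combine
  have hcomb : (1 / 2) * ((N : ℝ) / 6) ^ 2 * Real.exp (-(D * ℓ / 2)) * Real.exp (-3 * s) ≤
      (5 * (D * Real.exp (2 * L / D))) * T := by
    refine le_trans ?_ (hP.trans hPT)
    gcongr
  -- final inequality
  have h72 : Real.log 360 ≤ 6 := by
    rw [Real.log_le_iff_le_exp (by norm_num)]
    have h := Real.exp_one_gt_d9
    calc (360 : ℝ) ≤ 2.7182818283 ^ 6 := by norm_num
      _ ≤ Real.exp 1 ^ 6 := pow_le_pow_left₀ (by norm_num) h.le 6
      _ = Real.exp 6 := by rw [← Real.exp_nat_mul]; norm_num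
  have hDℓ : D * ℓ / 2 ≤ g + ℓ / 2 := by
    have : (D : ℝ) * ℓ ≤ 2 * g + ℓ := by
      have := mul_lt_mul_of_pos_right hD2 hℓpos
      have e : (2 * g / ℓ + 1) * ℓ = 2 * g + ℓ := by field_simp
      linarith
    linarith
  have h2LD : 2 * L / D ≤ g := by
    rw [div_le_iff₀ hDpos]
    have h1 : 2 * g ≤ D * ℓ := by
      rwa [div_le_iff₀ hℓpos] at hD1
    have h2 : g * (2 * g) ≤ g * (D * ℓ) := mul_le_mul_of_nonneg_left h1 hgpos.le
    have h3 : 2 * (ℓ * L) ≤ g * D * ℓ := by rw [← hg2]; linarith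
    have h4 : ℓ * (2 * L) ≤ ℓ * (g * D) := by linarith
    exact le_of_mul_le_mul_left h4 hℓpos
  have hexpo : Real.exp (-(2 * g) - 11 * u) * (360 * (D * Real.exp (2 * L / D))) ≤
      Real.exp (-(D * ℓ / 2)) * Real.exp (-3 * s) := by
    rw [hDexp, ← Real.exp_log (show (0 : ℝ) < 360 by norm_num), ← Real.exp_add, ← Real.exp_add,
      ← Real.exp_add, ← Real.exp_add, Real.exp_le_exp, ← hDexp]
    linarith
  have hE : 0 < 5 * (D * Real.exp (2 * L / D)) := by positivity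
  have : (N : ℝ) ^ 2 * Real.exp (-(2 * g) - 11 * u) * (5 * (D * Real.exp (2 * L / D))) ≤
      (5 * (D * Real.exp (2 * L / D))) * T := by
    refine le_trans ?_ hcomb
    have e : (N : ℝ) ^ 2 * Real.exp (-(2 * g) - 11 * u) * (5 * (D * Real.exp (2 * L / D))) =
        (N : ℝ) ^ 2 / 72 * (Real.exp (-(2 * g) - 11 * u) * (360 * (D * Real.exp (2 * L / D)))) := by ring
    have e' : 1 / 2 * ((N : ℝ) / 6) ^ 2 * Real.exp (-(D * ℓ / 2)) * Real.exp (-3 * s) =
        (N : ℝ) ^ 2 / 72 * (Real.exp (-(D * ℓ / 2)) * Real.exp (-3 * s)) := by ring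
    rw [e, e']
    gcongr
  have h' : (5 * (D * Real.exp (2 * L / D))) * ((N : ℝ) ^ 2 * Real.exp (-(2 * g) - 11 * u)) ≤
      (5 * (D * Real.exp (2 * L / D))) * T := by linarith
  exact le_of_mul_le_mul_left h' hE

end Pool.Agent.H480R2.RS
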