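import Mathlib
import Pool.Agent.H480R2.RS.Defs

/-! Statements of the tasks (do not import this file in a finished module). -/

open Finset MeasureTheory

namespace Pool.Agent.H480R2.RS

/-! ### VOL -/

theorem rball_meas (D : ℕ) (ρ : ℝ) : MeasurableSet (rball D ρ) := sorry

theorem rball_fin (D : ℕ) (ρ : ℝ) : volume (rball D ρ) ≠ ⊤ := sorry

theorem vol_rball (D : ℕ) {ρ : ℝ} (hρ : 0 ≤ ρ) : (volume (rball D ρ)).toReal = ρ ^ D * V D := sorry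

theorem V_pos (D : ℕ) : 0 < V D := sorry

theorem V_le (D : ℕ) : V D ≤ 2 ^ D := sorry

/-! ### UD -/

theorem ball_card_le (D R : ℕ) : ((ball D R).card : ℝ) ≤ (√R + √D / 2) ^ D * V D := sorry

theorem le_ball_card {D R : ℕ} (h : √D / 2 ≤ √R) :
    (√R - √D / 2) ^ D * V D ≤ ((ball D R).card : ℝ) := sorry

/-! ### LENS -/

theorem pairs_ge {D R : ℕ} (r τ : ℝ) (hr : 0 ≤ r) (hD : √D / 2 ≤ √R)
    (h : (R : ℝ) / 4 + τ + r ^ 2 ≤ (√R - √D / 2) ^ 2) :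
    ∑ x ∈ ball D R, (volume {w : Fin D → ℝ | w ∈ rball D r ∧ |∑ i, w i * (x i : ℝ)| ≤ τ}).toReal
      ≤ ((pairs D R).card : ℝ) := sorry

/-! ### CHEB -/

theorem cheb {D R : ℕ} (hD : 1 ≤ D) (r τ : ℝ) (hr : 0 ≤ r) (hτ : 0 < τ) :
    ((ball D R).card : ℝ) * (r ^ D * V D) * (1 - r ^ 2 * R / (D * τ ^ 2)) ≤
    ∑ x ∈ ball D R, (volume {w : Fin D → ℝ | w ∈ rball D r ∧ |∑ i, w i * (x i : ℝ)| ≤ τ}).toReal := sorry

/-! ### HG -/

theorem ex63_ge {D R K n : ℕ} (h : 3 * (ball D R).card ≤ n) : (pairsK D R K).card ≤ ex63 n := sorry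

/-! ### GR -/

theorem fUT_ge {D R K n : ℕ} (h : 3 * (ball D R).card ≤ n) : 3 * (pairsK D R K).card ≤ fUT n := sorry

end Pool.Agent.H480R2.RS
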